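import Pool.Agent.Work.MP_d3517d_nt.PN.Defs
import Pool.Agent.Work.MP_d3517d_nt.P5.Defs

/-!
# The symbols of level `9 ∣ M` are the case `N = 9` of `P5/Defs` (MP_d3517d_nt)

* `eS : S9 ≃* SN 9`, `eC : Cusp ≃ PX.Cusp 9`;
* `pull : (PX.Cusp 9 → PX.Cusp 9 → V) ≃ₗ (Cusp → Cusp → V)`;
* `symX : PX.Sym k 9 M n ≃ₗ[k] Sym k M n`, compatible with `act` and `hecke`.
-/

open Polynomial Finset Matrix

noncomputable section

namespace Gouvea.PN

lemma n3_iff {a : ℤ} : N3 a ↔ IsCoprime a ((9 : ℕ) : ℤ) := by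
  have h9 : ((9 : ℕ) : ℤ) = 3 ^ 2 := by norm_num
  rw [h9, IsCoprime.pow_right_iff (by norm_num), isCoprime_comm,
    Int.prime_three.coprime_iff_not_dvd]
  rfl

/-- the monoid `S9` is `SN 9` -/
def eS : S9 ≃* PX.SN 9 where
  toFun g := ⟨g.1, g.2.1, n3_iff.1 g.2.2.1, g.2.2.2⟩
  invFun g := ⟨g.1, g.2.1, n3_iff.2 g.2.2.1, g.2.2.2⟩
  left_inv _ := rfl
  right_inv _ := rfl
  map_mul' _ _ := rfl

@[simp] lemma eS_coe (g : S9) : (eS g).1 = g.1 := rfl

@[simp] lemma eS_symm_coe (g : PX.SN 9) : (eS.symm g).1 = g.1 := rfl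

/-- the cusps -/
def eC : Cusp ≃ PX.Cusp 9 where
  toFun := Quotient.map (fun x : PreCusp =>
    (⟨x.u, x.v, n3_iff.1 x.hu, x.hv, Or.inl x.hu.ne_zero⟩ : PX.PreCusp 9)) (fun _ _ h => h)
  invFun := Quotient.map (fun x : PX.PreCusp 9 => (⟨x.u, x.v, n3_iff.2 x.hu, x.hv⟩ : PreCusp))
    (fun _ _ h => h)
  left_inv x := Quotient.inductionOn x fun _ => rfl
  right_inv x := Quotient.inductionOn x fun _ => rfl

lemma eC_inf : eC inf = PX.inf 9 := rfl

lemma eC_smul (g : S9) (x : Cusp) : eC (g • x) = eS g • eC x :=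
  Quotient.inductionOn x fun _ => rfl

lemma eC_symm_smul (g : PX.SN 9) (x : PX.Cusp 9) : eC.symm (g • x) = eS.symm g • eC.symm x :=
  Quotient.inductionOn x fun _ => rfl

section

variable (k : Type) [CommRing k] (n : ℕ)

/-- functions on pairs of cusps -/
def pull : (PX.Cusp 9 → PX.Cusp 9 → Fin (n + 1) → k) ≃ₗ[k] (Cusp → Cusp → Fin (n + 1) → k) where
  toFun φ x y := φ (eC x) (eC y)
  invFun φ x y := φ (eC.symm x) (eC.symm y)
  left_inv φ := by funext x y; simp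
  right_inv φ := by funext x y; simp
  map_add' _ _ := rfl
  map_smul' _ _ := rfl

variable {k n}

lemma pull_apply (φ : PX.Cusp 9 → PX.Cusp 9 → Fin (n + 1) → k) (x y : Cusp) :
    pull k n φ x y = φ (eC x) (eC y) := rfl

lemma act_pull (g : S9) (φ : PX.Cusp 9 → PX.Cusp 9 → Fin (n + 1) → k) :
    act k n g (pull k n φ) = pull k n (PX.act k 9 n (eS g) φ) := by
  funext x y
  rw [act_apply, pull_apply, pull_apply, PX.act_apply, eC_smul, eC_smul]
  rfl

lemma isG0_eS {M : ℕ} {g : S9} : PX.IsG0 M (eS g) ↔ IsG0 M g := Iff.rfl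

lemma pull_mem {M : ℕ} (φ : PX.Cusp 9 → PX.Cusp 9 → Fin (n + 1) → k) :
    pull k n φ ∈ Sym k M n ↔ φ ∈ PX.Sym k 9 M n := by
  constructor
  · rintro ⟨h1, h2⟩
    refine ⟨fun x y z => ?_, fun g hg => ?_⟩
    · have := h1 (eC.symm x) (eC.symm y) (eC.symm z)
      simpa [pull_apply] using this
    · have h3 := h2 (eS.symm g) hg
      rw [act_pull, MulEquiv.apply_symm_apply] at h3
      exact (pull k n).injective h3
  · rintro ⟨h1, h2⟩
    refine ⟨fun x y z => h1 _ _ _, fun g hg => ?_⟩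
    rw [act_pull, h2 (eS g) hg]

lemma eS_upS (a b d : ℤ) : eS (upS a b d) = PX.upS 9 a b d := by
  apply Subtype.ext
  by_cases h : N3 a ∧ d ≠ 0
  · rw [eS_coe, upS_coe h.1 h.2, PX.upS_coe (n3_iff.1 h.1) (mul_ne_zero h.1.ne_zero h.2)]
  · have h' : ¬ (IsCoprime a ((9 : ℕ) : ℤ) ∧ a * d ≠ 0) := by
      rintro ⟨h1, h2⟩
      exact h ⟨n3_iff.2 h1, right_ne_zero_of_mul h2⟩
    rw [eS_coe]
    unfold upS PX.upS
    rw [dif_neg h, dif_neg h']
    rfl

lemma hecke_pull (M l : ℕ) (φ : PX.Cusp 9 → PX.Cusp 9 → Fin (n + 1) → k) :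
    hecke k M n l (pull k n φ) = pull k n (PX.hecke k 9 M n l φ) := by
  unfold hecke PX.hecke
  rw [LinearMap.add_apply, LinearMap.add_apply, map_add, LinearMap.sum_apply,
    LinearMap.sum_apply, map_sum]
  congr 1
  · refine Finset.sum_congr rfl fun b _ => ?_
    rw [act_pull, eS_upS]
  · split_ifs
    · simp
    · rw [act_pull, eS_upS]

variable (k n)

/-- **The symbols of level `9 ∣ M` of `PN/Defs` and of `P5/Defs`.** -/
def symX (M : ℕ) : PX.Sym k 9 M n ≃ₗ[k] Sym k M n :=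
  (pull k n).submoduleMap (PX.Sym k 9 M n) |>.trans (LinearEquiv.ofEq _ _ (by
    ext φ
    rw [Submodule.mem_map]
    constructor
    · rintro ⟨ψ, h1, rfl⟩
      exact (pull_mem ψ).2 h1
    · intro h
      refine ⟨(pull k n).symm φ, ?_, (pull k n).apply_symm_apply φ⟩
      rw [← pull_mem, LinearEquiv.apply_symm_apply]
      exact h))

variable {k n}

@[simp] lemma symX_coe (M : ℕ) (φ : PX.Sym k 9 M n) : (symX k n M φ).1 = pull k n φ.1 := rfl

lemma hecke_symX (M l : ℕ) (φ : PX.Sym k 9 M n) :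
    hecke k M n l (symX k n M φ).1 = pull k n (PX.hecke k 9 M n l φ.1) :=
  hecke_pull M l φ.1

end

end Gouvea.PN
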