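import Pool.Agent.Work.MP_d3517d_nt.PN.Psi
import Pool.Agent.Work.MP_d3517d_nt.PN.ToX
import Pool.Agent.Work.MP_d3517d_nt.P5.Rho
import Pool.Agent.Work.MP_d3517d_nt.ES.Transfer
import Pool.Agent.Work.MP_d3517d_nt.ES.RhoS
import Pool.Agent.Work.MP_d3517d_nt.P5.MainX

/-!
# The integral structure of the symbols of level `9 ∣ M` (MP_d3517d_nt)

`AZ9 M n : ℤ[T_q] → Mat(ℤ)`, `T_q ↦ Tm M n q`; over every algebraically closed field `K` the systems
of eigenvalues of `ℤ[T_q]` on `PX.Sym K 9 M n` are those of `AZ9 M n`.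
-/

open Gouvea.Desc Gouvea.Sys

noncomputable section

namespace Gouvea.PN

variable {M n : ℕ} [NeZero M]

/-- the coordinates of the symbols -/
def PsiX (k : Type) [CommRing k] (M n : ℕ) (hn : Even n) :
    PX.Sym k 9 M n ≃ₗ[k] (Vx M × Fin (n + 1) → k) :=
  (symX k n M).trans (Psi k M n hn)

theorem PsiX_opN (k : Type) [CommRing k] (hM : 9 ∣ M) (hn : Even n) (q : Nat.Primes)
    (φ : PX.Sym k 9 M n) : PsiX k M n hn (PX.opN k 9 M n hM q φ) =
      ((Tm M n q).map (Int.cast : ℤ → k)).mulVec (PsiX k M n hn φ) := by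
  have h1 : hecke k M n q (symX k n M φ).1 ∈ Sym k M n := by
    rw [hecke_symX]
    exact (pull_mem _).2 (PX.opN k 9 M n hM q φ).2
  have h2 : symX k n M (PX.opN k 9 M n hM q φ) = ⟨hecke k M n q (symX k n M φ).1, h1⟩ := by
    apply Subtype.ext
    rw [symX_coe]
    change _ = hecke k M n q (symX k n M φ).1
    rw [hecke_symX]
    rfl
  rw [PsiX, LinearEquiv.trans_apply, h2, Psi_hecke hn (symX k n M φ) h1]
  rfl

theorem Tm_comm (hM : 9 ∣ M) (hn : Even n) (q r : Nat.Primes) :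
    Commute (Tm M n q) (Tm M n r) := by
  have hid : ∀ A : Matrix (Vx M × Fin (n + 1)) (Vx M × Fin (n + 1)) ℤ,
      A.map (Int.cast : ℤ → ℤ) = A := fun A => by
    ext i j
    simp
  have key : ∀ v, (Tm M n q * Tm M n r).mulVec v = (Tm M n r * Tm M n q).mulVec v := by
    intro v
    obtain ⟨φ, rfl⟩ := (PsiX ℤ M n hn).surjective v
    have h1 := PsiX_opN ℤ hM hn q (PX.opN ℤ 9 M n hM r φ)
    have h2 := PsiX_opN ℤ hM hn r (PX.opN ℤ 9 M n hM q φ)
    rw [PsiX_opN ℤ hM hn r φ, hid, hid] at h1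
    rw [PsiX_opN ℤ hM hn q φ, hid, hid] at h2
    rw [← Matrix.mulVec_mulVec, ← Matrix.mulVec_mulVec, ← h1, ← h2]
    exact congrArg (PsiX ℤ M n hn) (LinearMap.congr_fun (PX.opN_comm ℤ 9 M n hM q r) φ)
  exact Matrix.mulVec_injective (funext key)

/-- the integral matrices of the Hecke operators -/
def AZ9 (M n : ℕ) [NeZero M] (hM : 9 ∣ M) (hn : Even n) :
    MvPolynomial Nat.Primes ℤ →+* Matrix (Vx M × Fin (n + 1)) (Vx M × Fin (n + 1)) ℤ :=
  comEval (fun q : Nat.Primes => Tm M n q) (Tm_comm hM hn)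

theorem AZ9_X (hM : 9 ∣ M) (hn : Even n) (q : Nat.Primes) :
    AZ9 M n hM hn (MvPolynomial.X q) = Tm M n q := comEval_X _ _ _

variable (K : Type) [Field K]

theorem PsiX_equivariant (hM : 9 ∣ M) (hn : Even n) (r : MvPolynomial Nat.Primes ℤ)
    (φ : PX.Sym K 9 M n) : PsiX K M n hn (PX.rhoN K 9 M n hM r φ) =
      matRep (intRep K (AZ9 M n hM hn)) r (PsiX K M n hn φ) := by
  refine ES.equivariant_of_X (f := (PsiX K M n hn).toLinearMap) (fun q φ => ?_) r φ
  rw [PX.rhoN_X, matRep_apply]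
  have e : intRep K (AZ9 M n hM hn) (MvPolynomial.X q) = (Tm M n q).map (Int.cast : ℤ → K) := by
    rw [intRep, RingHom.comp_apply, AZ9_X]
    rfl
  rw [e]
  exact PsiX_opN K hM hn q φ

/-- **The systems of eigenvalues on the symbols are those of the integral matrices.** -/
theorem Sys_rhoN9 (hM : 9 ∣ M) (hn : Even n) :
    haveI := PX.finiteDimensional_SymX K (by norm_num : 2 ≤ 9) hM hn
    Sys (PX.rhoN K 9 M n hM) = Sys (matRep (intRep K (AZ9 M n hM hn))) := by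
  have := PX.finiteDimensional_SymX K (by norm_num : 2 ≤ 9) hM hn
  exact Sys_congr (PsiX K M n hn) (PsiX_equivariant K hM hn)

/-- **Eichler–Shimura for the integral matrices of level `9 ∣ M`.** -/
theorem Sys_AZ9 (hM : 9 ∣ M) (hn : Even n) (hn2 : 2 ≤ n) :
    ∃ r : Multiset (MvPolynomial Nat.Primes ℤ →+* ℂ), r.card ≤ PX.esBoundX M ∧
      Sys (matRep (intRep ℂ (AZ9 M n hM hn))) =
        Sys (ES.rhoC M (n + 2)) + Sys (ES.rhoC M (n + 2)) + r := by
  have := PX.finiteDimensional_SymX ℂ (by norm_num : 2 ≤ 9) hM hn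
  obtain ⟨r, hr, h1⟩ := PX.Sys_SymX (by norm_num : 2 ≤ 9) hM hn hn2
  exact ⟨r, hr, by rw [← h1, Sys_rhoN9 ℂ hM hn]⟩

end Gouvea.PN
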