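import Pool.Agent.Work.MP_d3517d_nt.PN.MatOf
import Pool.Agent.Work.MP_d3517d_nt.PS.DatOf

/-!
# The relations of the doubled datum in matrix form (MP_d3517d_nt, partial symbols)
-/

open Finset Matrix

noncomputable section

namespace Gouvea.PN

open Gouvea.PS (IsCoc IsTree Symb mem_Symb Lev et ss ce et_mul_et ss_mul_ss ce_eq ce_mul_et
  et_mul_ce ce_mul ce_one mat_ext_gen opM opM_mulVec op op_apply Neta etaM_eq one_mulVec')

variable {k : Type} [CommRing k] {M p n : ℕ}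

/-! ### the operators as sums over finite types -/

lemma gaS_unit (A : Matrix (Fin 2) (Fin 2) ℤ) (g : S9) (φ : Cusp → Cusp → Fin (n + 1) → k) :
    gaS k n (fun _ : Unit => A) (fun _ => g) φ = ga k n A g φ := by
  rw [gaS_apply, Fintype.sum_unique]

lemma gaS_piP (φ : Cusp → Cusp → Fin (n + 1) → k) :
    gaS k n (fun i : Option (Fin p) => (kap M p i).1) (fun i => kap M p i) φ =
      piP k M p n φ := by
  rw [gaS_apply, piP_apply]
  rfl

lemma gaS_piM (ψ : Cusp → Cusp → Fin (n + 1) → k) :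
    gaS k n (fun i : Option (Fin p) => ss * (kau M p i).1) (fun i => dr p * kau M p i) ψ =
      piM k M p n ψ := by
  rw [gaS_apply, piM_apply]
  exact Finset.sum_congr rfl fun i _ => by rw [act_eq_ga, ga_ga]

lemma sum_bet {X : Type} [AddCommMonoid X] (F : S9 → X) (M l : ℕ) :
    ∑ i : Ix M l, F (bet M l i) =
      ∑ b ∈ range l, F (upS 1 (b : ℕ) l) + if l ∣ M then 0 else F (upS l 0 1) := by
  classical
  have h1 : ∑ i : Ix M l, F (bet M l i) =
      ∑ b : Fin l, F (upS 1 (b : ℕ) l) +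
        ∑ _u : {_u : Unit // ¬ l ∣ M}, F (upS l 0 1) := by
    have h2 : ∑ i : Ix M l, F (bet M l i) =
        ∑ i : Fin l ⊕ {_u : Unit // ¬ l ∣ M}, F (bet M l i) :=
      Fintype.sum_equiv (Equiv.refl _) _ _ (fun _ => rfl)
    rw [h2]
    exact Fintype.sum_sum_type (fun i : Fin l ⊕ {_u : Unit // ¬ l ∣ M} => F (bet M l i))
  rw [h1]
  refine congrArg₂ (· + ·) ?_ ?_
  · exact (Finset.sum_range (fun b : ℕ => F (upS 1 (b : ℤ) l))).symm
  · by_cases h : l ∣ M
    · rw [if_pos h]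
      have : IsEmpty {_u : Unit // ¬ l ∣ M} := ⟨fun u => u.2 h⟩
      simp
    · rw [if_neg h]
      have : Unique {_u : Unit // ¬ l ∣ M} := ⟨⟨⟨(), h⟩⟩, fun u => rfl⟩
      rw [Fintype.sum_unique]

lemma gaS_hecke (l : ℕ) (φ : Cusp → Cusp → Fin (n + 1) → k) :
    gaS k n (fun i : Ix M l => (bet M l i).1) (fun i => bet M l i) φ = hecke k M n l φ := by
  rw [gaS_apply, hecke_eq, LinearMap.sum_apply]
  rfl

lemma gaS_heckeT (l : ℕ) (φ : Cusp → Cusp → Fin (n + 1) → k) :
    gaS k n (fun i : Ix M l => ce p (bet M l i).1) (fun i => bet M l i) φ =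
      heckeT' k M p n l φ := by
  rw [gaS_apply, heckeT', LinearMap.add_apply, LinearMap.sum_apply,
    sum_bet (fun g => ga k n (ce p g.1) g φ) M l]
  refine congrArg₂ (· + ·) rfl ?_
  split_ifs <;> rfl

/-! ### stability of the twisted symbols under `T_l` -/

variable [hpf : Fact p.Prime]

lemma ga_et_inj [NoZeroDivisors k] [CharZero k] {φ ψ : Cusp → Cusp → Fin (n + 1) → k}
    (h : ga k n (et p) 1 φ = ga k n (et p) 1 ψ) : φ = ψ := by
  have h1 := congrArg (ga k n (et p) 1) h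
  rw [ga_et_et, ga_et_et] at h1
  have hp : (p : k) ^ n ≠ 0 := pow_ne_zero _ (by exact_mod_cast hpf.out.ne_zero)
  funext x y i
  have h2 := congrFun (congrFun (congrFun h1 x) y) i
  simp only [Pi.smul_apply, smul_eq_mul] at h2
  exact mul_left_cancel₀ hp h2

lemma hecke_level {l : ℕ} (hl : l.Prime) (hlp : l ≠ p) :
    hecke k (M * p) n l = hecke k M n l := by
  apply hecke_congr
  constructor
  · intro h
    rcases (hl.dvd_mul).1 h with h1 | h1
    · exact h1
    · exact absurd ((Nat.prime_dvd_prime_iff_eq hl hpf.out).1 h1) hlp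
  · intro h
    exact h.mul_right _

theorem hecke_mem_P [NeZero M] (h4 : 9 ∣ M) {l : ℕ} (hl : l.Prime) (hlp : l ≠ p)
    {φ : Cusp → Cusp → Fin (n + 1) → k} (h : φ ∈ Sym k (M * p) n) :
    hecke k M n l φ ∈ Sym k (M * p) n := by
  rw [← hecke_level (p := p) hl hlp]
  exact hecke_mem hl (h4.mul_right _) (NeZero.ne _) h

theorem hecke_mem_T [NoZeroDivisors k] [CharZero k] [NeZero M] (h4 : 9 ∣ M) {l : ℕ}
    (hl : l.Prime) (hlp : l ≠ p) {ψ : Cusp → Cusp → Fin (n + 1) → k}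
    (h : ψ ∈ Symb Cusp (rhoT k M p n)) : heckeT' k M p n l ψ ∈ Symb Cusp (rhoT k M p n) := by
  have h1 := hecke_mem_P (k := k) h4 hl hlp (W_mem h)
  rw [W_hecke] at h1
  have h2 := W_mem_T h1
  rw [ga_et_et] at h2
  have hp : (p : k) ^ n ≠ 0 := pow_ne_zero _ (by exact_mod_cast hpf.out.ne_zero)
  rw [mem_symT_iff] at h2 ⊢
  constructor
  · intro x y z
    funext i
    have := congrFun (h2.1 x y z) i
    simp only [Pi.smul_apply, Pi.add_apply, smul_eq_mul] at this ⊢
    rw [← mul_add] at this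
    exact mul_left_cancel₀ hp this
  · intro g hg
    have h3 := h2.2 g hg
    rw [map_smul] at h3
    funext x y i
    have := congrFun (congrFun (congrFun h3 x) y) i
    simp only [Pi.smul_apply, smul_eq_mul] at this
    exact mul_left_cancel₀ hp this

/-! ### the action of the matrices on the coordinates -/

section Vec

variable [NeZero M]

lemma iM_true_mulVec {f : Cusp → Cusp → Fin (n + 1) → ℤ_[p]} (h : f ∈ Sym ℤ_[p] M n) :
    iM M p true n *ᵥ cv M n f = cv (M * p) n f := by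
  rw [Sym_eq] at h
  have := gaM_mulVec (N := M * p) (fun _ : Unit => (1 : Matrix (Fin 2) (Fin 2) ℤ))
    (fun _ => (1 : S9)) h
  rw [gaS_unit, ga_one] at this
  exact this

lemma iM_false_mulVec {f : Cusp → Cusp → Fin (n + 1) → ℤ_[p]} (h : f ∈ Sym ℤ_[p] M n) :
    iM M p false n *ᵥ cv M n f = cv (M * p) n (ga ℤ_[p] n ss (dl p) f) := by
  rw [Sym_eq] at h
  have := gaM_mulVec (N := M * p) (fun _ : Unit => ss) (fun _ => dl p) h
  rw [gaS_unit] at this
  exact this

lemma pM_true_mulVec {φ : Cusp → Cusp → Fin (n + 1) → ℤ_[p]} (h : φ ∈ Sym ℤ_[p] (M * p) n) :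
    pM M p true n *ᵥ cv (M * p) n φ = cv M n (piP ℤ_[p] M p n φ) := by
  rw [Sym_eq] at h
  have := gaM_mulVec (N := M) (fun i : Option (Fin p) => (kap M p i).1)
    (fun i => kap M p i) h
  rw [gaS_piP] at this
  exact this

lemma pM_false_mulVec {ψ : Cusp → Cusp → Fin (n + 1) → ℤ_[p]}
    (h : ψ ∈ Symb Cusp (rhoT ℤ_[p] M p n)) :
    pM M p false n *ᵥ cv (M * p) n ψ = cv M n (piM ℤ_[p] M p n ψ) := by
  have := gaM_mulVec (N := M) (fun i : Option (Fin p) => ss * (kau M p i).1)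
    (fun i => dr p * kau M p i) h
  rw [gaS_piM] at this
  exact this

lemma uM_true_mulVec {ψ : Cusp → Cusp → Fin (n + 1) → ℤ_[p]}
    (h : ψ ∈ Symb Cusp (rhoT ℤ_[p] M p n)) :
    uM M p true n *ᵥ cv (M * p) n ψ = cv (M * p) n (∑ j : Fin p,
      ga ℤ_[p] n (ss * (kau M p (some j)).1 * ss * et p)
        (dr p * kau M p (some j) * dl p) ψ) := by
  have := gaM_mulVec (N := M * p) (fun j : Fin p => ss * (kau M p (some j)).1 * ss * et p)
    (fun j => dr p * kau M p (some j) * dl p) h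
  rw [gaS_apply] at this
  exact this

lemma uM_false_mulVec {φ : Cusp → Cusp → Fin (n + 1) → ℤ_[p]} (h : φ ∈ Sym ℤ_[p] (M * p) n) :
    uM M p false n *ᵥ cv (M * p) n φ = cv (M * p) n (∑ j : Fin p,
      ga ℤ_[p] n ((kap M p (some j)).1 * et p) (kap M p (some j)) φ) := by
  rw [Sym_eq] at h
  have := gaM_mulVec (N := M * p) (fun j : Fin p => (kap M p (some j)).1 * et p)
    (fun j => kap M p (some j)) h
  rw [gaS_apply] at this
  exact this

lemma tV_mulVec (l : ℕ) {f : Cusp → Cusp → Fin (n + 1) → ℤ_[p]} (h : f ∈ Sym ℤ_[p] M n) :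
    tV M p n l *ᵥ cv M n f = cv M n (hecke ℤ_[p] M n l f) := by
  rw [Sym_eq] at h
  have := gaM_mulVec (N := M) (fun i : Ix M l => (bet M l i).1) (fun i => bet M l i) h
  rw [gaS_hecke] at this
  exact this

lemma tE_true_mulVec (l : ℕ) {φ : Cusp → Cusp → Fin (n + 1) → ℤ_[p]}
    (h : φ ∈ Sym ℤ_[p] (M * p) n) :
    tE M p true n l *ᵥ cv (M * p) n φ = cv (M * p) n (hecke ℤ_[p] M n l φ) := by
  rw [Sym_eq] at h
  have := gaM_mulVec (N := M * p) (fun i : Ix M l => (bet M l i).1) (fun i => bet M l i) h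
  rw [gaS_hecke] at this
  exact this

lemma tE_false_mulVec (l : ℕ) {ψ : Cusp → Cusp → Fin (n + 1) → ℤ_[p]}
    (h : ψ ∈ Symb Cusp (rhoT ℤ_[p] M p n)) :
    tE M p false n l *ᵥ cv (M * p) n ψ = cv (M * p) n (heckeT' ℤ_[p] M p n l ψ) := by
  have := gaM_mulVec (N := M * p) (fun i : Ix M l => ce p (bet M l i).1)
    (fun i => bet M l i) h
  rw [gaS_heckeT] at this
  exact this

end Vec

/-! ### the relations -/

section Rel

variable [NeZero M] (hn : Even n) (hpo : N3 (p : ℤ)) (h4 : 9 ∣ M) (hpM : ¬ p ∣ M)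

include hn hpo h4 in
theorem pM_iM (b : Bool) : pM M p b n * iM M p b n = ((p : ℤ_[p]) + 1) • 1 := by
  refine mat_ext_P hn fun f hf => ?_
  rw [one_mulVec', ← Matrix.mulVec_mulVec]
  cases b
  · rw [iM_false_mulVec hf, pM_false_mulVec (iM_mem hpo h4 hf), piM_iM hpo h4 hf, cv_smul]
  · rw [iM_true_mulVec hf, pM_true_mulVec (iP_mem hf), piP_iP h4 hf, cv_smul]

include hn hpo h4 hpM in
theorem N_mul (b : Bool) :
    Neta p (Vx (M * p)) n * (iM M p (!b) n * pM M p (!b) n - 1) = uM M p b n := by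
  cases b
  · refine mat_ext_P hn fun φ hφ => ?_
    rw [Bool.not_false, ← Matrix.mulVec_mulVec, Matrix.sub_mulVec, Matrix.one_mulVec,
      ← Matrix.mulVec_mulVec, pM_true_mulVec hφ,
      iM_true_mulVec (piP_mem hpf.out h4 (NeZero.ne M) hpM hφ), ← cv_sub, Neta_mulVec, U_plus,
      uM_false_mulVec hφ]
  · refine mat_ext_T hn fun ψ hψ => ?_
    rw [Bool.not_true, ← Matrix.mulVec_mulVec, Matrix.sub_mulVec, Matrix.one_mulVec,
      ← Matrix.mulVec_mulVec, pM_false_mulVec hψ,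
      iM_false_mulVec (piM_mem hpf.out h4 (NeZero.ne M) hpM hψ), ← cv_sub, Neta_mulVec,
      U_minus hpo, uM_true_mulVec hψ]

include hn hpo h4 hpM in
theorem pM_N_iM (b : Bool) :
    pM M p b n * Neta p (Vx (M * p)) n * iM M p (!b) n = tV M p n p := by
  refine mat_ext_P hn fun f hf => ?_
  rw [tV_mulVec _ hf, ← Matrix.mulVec_mulVec, ← Matrix.mulVec_mulVec]
  cases b
  · rw [Bool.not_false, iM_true_mulVec hf, Neta_mulVec, pM_false_mulVec (W_mem_T (iP_mem hf)),
      TP_minus hpf.out h4 (NeZero.ne M) hpM hf]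
  · rw [Bool.not_true, iM_false_mulVec hf, Neta_mulVec,
      pM_true_mulVec (W_mem (iM_mem hpo h4 hf)), TP_plus hpf.out hpo h4 (NeZero.ne M) hpM hf]

/-! ### the Hecke operators -/

variable {l r : ℕ} (hl : l.Prime) (hlp : l ≠ p) (hr : r.Prime) (hrp : r ≠ p)

include hn h4 hl hr in
theorem tV_comm : tV M p n l * tV M p n r = tV M p n r * tV M p n l := by
  refine mat_ext_P hn fun f hf => ?_
  rw [← Matrix.mulVec_mulVec, ← Matrix.mulVec_mulVec, tV_mulVec _ hf, tV_mulVec _ hf,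
    tV_mulVec _ (hecke_mem hr h4 (NeZero.ne M) hf), tV_mulVec _ (hecke_mem hl h4 (NeZero.ne M) hf),
    hecke_comm hl hr h4 (NeZero.ne M) (sym_inv hf)]

include hn h4 hl hr hlp hrp in
theorem tE_comm (b : Bool) : tE M p b n l * tE M p b n r = tE M p b n r * tE M p b n l := by
  cases b
  · refine mat_ext_T hn fun ψ hψ => ?_
    rw [← Matrix.mulVec_mulVec, ← Matrix.mulVec_mulVec, tE_false_mulVec _ hψ,
      tE_false_mulVec _ hψ, tE_false_mulVec _ (hecke_mem_T h4 hr hrp hψ),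
      tE_false_mulVec _ (hecke_mem_T h4 hl hlp hψ)]
    have key : heckeT' ℤ_[p] M p n l (heckeT' ℤ_[p] M p n r ψ) =
        heckeT' ℤ_[p] M p n r (heckeT' ℤ_[p] M p n l ψ) := by
      apply ga_et_inj (p := p)
      rw [← W_hecke (k := ℤ_[p]) (M := M) (p := p) (n := n) l,
        ← W_hecke (k := ℤ_[p]) (M := M) (p := p) (n := n) r,
        ← W_hecke (k := ℤ_[p]) (M := M) (p := p) (n := n) r,
        ← W_hecke (k := ℤ_[p]) (M := M) (p := p) (n := n) l]
      exact hecke_comm hl hr h4 (NeZero.ne M) (sym_inv (W_mem hψ))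
    rw [key]
  · refine mat_ext_P hn fun φ hφ => ?_
    rw [← Matrix.mulVec_mulVec, ← Matrix.mulVec_mulVec, tE_true_mulVec _ hφ,
      tE_true_mulVec _ hφ, tE_true_mulVec _ (hecke_mem_P h4 hr hrp hφ),
      tE_true_mulVec _ (hecke_mem_P h4 hl hlp hφ), hecke_comm hl hr h4 (NeZero.ne M) (sym_inv hφ)]

omit h4 hl hlp in
include hn in
theorem tE_W (b : Bool) : tE M p b n l * Neta p (Vx (M * p)) n =
    Neta p (Vx (M * p)) n * tE M p (!b) n l := by
  cases b
  · refine mat_ext_P hn fun φ hφ => ?_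
    rw [← Matrix.mulVec_mulVec, ← Matrix.mulVec_mulVec, Neta_mulVec, Bool.not_false,
      tE_true_mulVec _ hφ, tE_false_mulVec _ (W_mem_T hφ), Neta_mulVec, W_heckeT]
  · refine mat_ext_T hn fun ψ hψ => ?_
    rw [← Matrix.mulVec_mulVec, ← Matrix.mulVec_mulVec, Neta_mulVec, Bool.not_true,
      tE_false_mulVec _ hψ, tE_true_mulVec _ (W_mem hψ), Neta_mulVec, W_hecke]

include hn hpo h4 hl hlp in
theorem tE_iM (b : Bool) : tE M p b n l * iM M p b n = iM M p b n * tV M p n l := by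
  refine mat_ext_P hn fun f hf => ?_
  rw [← Matrix.mulVec_mulVec, ← Matrix.mulVec_mulVec, tV_mulVec _ hf]
  have hf' := hecke_mem hl h4 (NeZero.ne M) hf
  cases b
  · rw [iM_false_mulVec hf, iM_false_mulVec hf', tE_false_mulVec _ (iM_mem hpo h4 hf),
      iM_heckeT hpo h4 hl, heckeu_eq hpf.out hl hlp (sym_inv hf)]
  · rw [iM_true_mulVec hf, iM_true_mulVec hf', tE_true_mulVec _ (iP_mem hf)]

include hn h4 hl hlp hpM in
theorem pM_tE (b : Bool) : pM M p b n * tE M p b n l = tV M p n l * pM M p b n := by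
  cases b
  · refine mat_ext_T hn fun ψ hψ => ?_
    rw [← Matrix.mulVec_mulVec, ← Matrix.mulVec_mulVec, tE_false_mulVec _ hψ,
      pM_false_mulVec hψ, pM_false_mulVec (hecke_mem_T h4 hl hlp hψ),
      tV_mulVec _ (piM_mem hpf.out h4 (NeZero.ne M) hpM hψ),
      piM_heckeT hpf.out h4 (NeZero.ne M) hpM hl hlp hψ]
  · refine mat_ext_P hn fun φ hφ => ?_
    rw [← Matrix.mulVec_mulVec, ← Matrix.mulVec_mulVec, tE_true_mulVec _ hφ,
      pM_true_mulVec hφ, pM_true_mulVec (hecke_mem_P h4 hl hlp hφ),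
      tV_mulVec _ (piP_mem hpf.out h4 (NeZero.ne M) hpM hφ), piP_apply, piP_apply,
      hecke_trace hpf.out hl hlp h4 (NeZero.ne M) hpM hφ.2, hecke_level hl hlp]

end Rel

end Gouvea.PN
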