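import Pool.Agent.Work.MP_d3517d_nt.PN.Lev0

/-!
# The number of classes at level `M p` (MP_d3517d_nt)
-/

open Finset Matrix

noncomputable section

namespace Gouvea.PN

/-- `κ` represents `Γ₀(N) \ Γ₀(M)`: the classes at level `N` are the pairs (class at level `M`,
index of `κ`). -/
theorem card_Vx_mul {M N : ℕ} (hMN : M ∣ N) {ι : Type} (κ : ι → T9) (hκ : ∀ i, κ i ∈ G0 M)
    (hrep : ∀ g ∈ G0 M, ∃ i, g * (κ i)⁻¹ ∈ G0 N)
    (hinj : ∀ i j, κ i * (κ j)⁻¹ ∈ G0 N → i = j) :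
    Nat.card (Vx N) = Nat.card ι * Nat.card (Vx M) := by
  rw [← Nat.card_prod]
  symm
  refine Nat.card_congr (Equiv.ofBijective (fun x : ι × Vx M => vx N (κ x.1 * rp M x.2)) ⟨?_, ?_⟩)
  · rintro ⟨i, v⟩ ⟨j, w⟩ h
    have h1 : κ j * rp M w * (κ i * rp M v)⁻¹ ∈ G0 N := vx_eq.1 h
    have h2 : κ j * rp M w * (κ i * rp M v)⁻¹ ∈ G0 M := G0_le hMN h1
    have h3 : rp M w * (rp M v)⁻¹ ∈ G0 M := by
      have h4 := (G0 M).mul_mem ((G0 M).mul_mem ((G0 M).inv_mem (hκ j)) h2) (hκ i)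
      have e : (κ j)⁻¹ * (κ j * rp M w * (κ i * rp M v)⁻¹) * κ i = rp M w * (rp M v)⁻¹ := by
        group
      rwa [e] at h4
    have h5 : v = w := by
      rw [← vx_eq, vx_rp, vx_rp] at h3
      exact h3
    subst h5
    have h6 : κ j * (κ i)⁻¹ ∈ G0 N := by
      have e : κ j * rp M v * (κ i * rp M v)⁻¹ = κ j * (κ i)⁻¹ := by group
      rwa [e] at h1
    rw [hinj j i h6]
  · intro x
    obtain ⟨g, rfl⟩ : ∃ g, vx N g = x := ⟨rp N x, vx_rp x⟩
    obtain ⟨i, hi⟩ := hrep _ (rp_mem (M := M) g)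
    refine ⟨(i, vx M g), ?_⟩
    show vx N (κ i * rp M (vx M g)) = vx N g
    rw [vx_eq]
    have e : g * (κ i * rp M (vx M g))⁻¹ = g * (rp M (vx M g))⁻¹ * (κ i)⁻¹ := by group
    rw [e]
    exact hi

/-- The same with the representatives in `S9`. -/
theorem card_Vx_mul' {M N : ℕ} (hMN : M ∣ N) {ι : Type} [Fintype ι] [Fintype (Vx M)]
    [Fintype (Vx N)] (κ : ι → S9) (hκ : ∀ i, IsG0 M (κ i))
    (hrep : ∀ g, IsG0 M g → ∃! i, ∃ γ : S9, IsG0 N γ ∧ g = γ * κ i) :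
    Fintype.card (Vx N) = Fintype.card ι * Fintype.card (Vx M) := by
  choose u hu hu' using fun i => exists_toS' (hκ i)
  have key : ∀ (g : T9) (i : ι), g * (u i)⁻¹ ∈ G0 N ↔
      ∃ γ : S9, IsG0 N γ ∧ toS g = γ * κ i := by
    intro g i
    constructor
    · intro h
      refine ⟨toS (g * (u i)⁻¹), isG0_iff.2 h, ?_⟩
      rw [← hu' i, ← map_mul]
      simp
    · rintro ⟨γ, h1, h2⟩
      obtain ⟨v, hv, rfl⟩ := exists_toS' h1
      have h3 : toS g = toS (v * u i) := by rw [h2, map_mul, hu']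
      have h4 : g = v * u i := mt_inj (by rw [← toS_coe, ← toS_coe, h3])
      rw [h4]
      simpa using hv
  have h := card_Vx_mul hMN u hu (fun g hg => ?_) (fun i j hij => ?_)
  · rw [Nat.card_eq_fintype_card, Nat.card_eq_fintype_card, Nat.card_eq_fintype_card] at h
    exact h
  · obtain ⟨i, hi, -⟩ := hrep (toS g) (isG0_iff.2 hg)
    exact ⟨i, (key g i).2 hi⟩
  · have h1 : ∃ γ : S9, IsG0 N γ ∧ toS (u i) = γ * κ j := (key (u i) j).1 hij
    have h2 : ∃ γ : S9, IsG0 N γ ∧ toS (u i) = γ * κ i := (key (u i) i).1 (by simp [(G0 N).one_mem])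
    exact (hrep (toS (u i)) (isG0_iff.2 (hu i))).unique h2 h1

end Gouvea.PN
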