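import Pool.Agent.Work.MP_d3517d_nt.PN.Lev0
import Pool.Agent.Work.MP_d3517d_nt.PN.Rep

/-!
# Coordinates of partial modular symbols, integer matrices of the Hecke operators (MP_d3517d_nt)

* `Psi k M n` : `Sym k M n ≃ₗ[k] (Vx M × Fin (n + 1) → k)` (`n` even, any ring `k`);
* `Tm M n l` : the integer matrix of `T_l` (`l ∤ M`), `U_l` (`l ∣ M`), the same for all rings `k`.
-/

open Polynomial Finset Matrix

noncomputable section

namespace Gouvea.PN

open Gouvea.PS (IsCoc IsTree Symb mem_Symb Lev crd evM opM opM_mulVec op op_apply)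

variable (k : Type) [CommRing k]

/-- The coordinates of a symbol: its values at the edges `(r ∞, r (1/4))`, `r` a representative. -/
def Psi (M n : ℕ) (hn : Even n) : Sym k M n ≃ₗ[k] (Vx M × Fin (n + 1) → k) :=
  (LinearEquiv.ofEq _ _ (Sym_eq k M n)).trans (crd (lev0 M) isTree (rho_ng k M hn))

variable {k}

lemma Psi_apply {M n : ℕ} (hn : Even n) (φ : Sym k M n) (x : Vx M × Fin (n + 1)) :
    Psi k M n hn φ x = φ.1 (rp M x.1 • inf) (rp M x.1 • qrt) x.2 := rfl

lemma rho_map (M n : ℕ) (g : G0 M) :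
    (rho ℤ M n g).map (Int.cast : ℤ → k) = rho k M n g := by
  rw [rho_apply, rho_apply]
  have h := slk_map (Int.castRingHom k) n ((toS (g : T9)⁻¹).1.map (Int.cast : ℤ → ℤ))
  have e : ((toS (g : T9)⁻¹).1.map (Int.cast : ℤ → ℤ)).map (Int.castRingHom k) =
      (toS (g : T9)⁻¹).1.map (Int.cast : ℤ → k) := by
    ext i j
    simp
  rw [e] at h
  exact h.symm

lemma slk_cast (n : ℕ) (g : Matrix (Fin 2) (Fin 2) ℤ) :
    (slk n (g.map (Int.cast : ℤ → ℤ))).map (Int.cast : ℤ → k) =
      slk n (g.map (Int.cast : ℤ → k)) := by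
  have h := slk_map (Int.castRingHom k) n (g.map (Int.cast : ℤ → ℤ))
  have e : (g.map (Int.cast : ℤ → ℤ)).map (Int.castRingHom k) = g.map (Int.cast : ℤ → k) := by
    ext i j
    simp
  rw [e] at h
  exact h.symm

lemma evM_map (M n : ℕ) (x y : Cusp) :
    (evM (lev0 M) isTree (rho ℤ M n) x y).map (Int.cast : ℤ → k) =
      evM (lev0 M) isTree (rho k M n) x y := by
  ext i z
  simp only [Matrix.map_apply, evM, Matrix.of_apply, Finsupp.sum]
  rw [Int.cast_sum]
  refine Finset.sum_congr rfl fun g _ => ?_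
  split_ifs
  · rw [Int.cast_mul, ← rho_map (k := k) M n]
    simp
  · simp

variable (M n l : ℕ)

/-- The integer matrix of `T_l` (`l ∤ M`), `U_l` (`l ∣ M`) in weight `n + 2`. -/
def Tm : Matrix (Vx M × Fin (n + 1)) (Vx M × Fin (n + 1)) ℤ :=
  opM (lev0 M) isTree (lev0 M) (rho ℤ M n)
    (fun i : Ix M l => slk n ((bet M l i).1.map (Int.cast : ℤ → ℤ)))
    (fun i x => bet M l i • x)

lemma Tm_map : (Tm M n l).map (Int.cast : ℤ → k) =
    opM (lev0 M) isTree (lev0 M) (rho k M n)
      (fun i : Ix M l => slk n ((bet M l i).1.map (Int.cast : ℤ → k)))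
      (fun i x => bet M l i • x) := by
  ext z w
  simp only [Tm, opM, Matrix.map_apply, Matrix.of_apply]
  rw [Int.cast_sum]
  refine Finset.sum_congr rfl fun i _ => ?_
  rw [← evM_map (k := k), ← slk_cast (k := k)]
  simp [Matrix.mul_apply]

lemma hecke_eq_op : hecke k M n l =
    op (fun i : Ix M l => slk n ((bet M l i).1.map (Int.cast : ℤ → k)))
      (fun i (x : Cusp) => bet M l i • x) := by
  apply LinearMap.ext
  intro φ
  rw [hecke_eq, LinearMap.sum_apply]
  funext x y
  rw [op_apply]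
  simp only [Finset.sum_apply]
  rfl

variable {M n l}

/-- **The integer matrices of the Hecke operators.** -/
theorem Psi_hecke [NeZero M] (hn : Even n) (φ : Sym k M n) (h : hecke k M n l φ.1 ∈ Sym k M n) :
    Psi k M n hn ⟨hecke k M n l φ.1, h⟩ =
      ((Tm M n l).map (Int.cast : ℤ → k)).mulVec (Psi k M n hn φ) := by
  funext z
  have h1 : φ.1 ∈ Symb Cusp (rho k M n) := by
    rw [← Sym_eq]
    exact φ.2
  rw [Psi_apply, Tm_map]
  simp only [hecke_eq_op]
  exact (opM_mulVec (lev0 M) isTree (lev0 M) (ρ := rho k M n) _ _ h1 z).symm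

end Gouvea.PN
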