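import Pool.Agent.Work.MP_d3517d_nt.PN.HRepOf
import Pool.Agent.Work.MP_d3517d_nt.PN.DatOf
import Pool.Agent.Work.MP_d3517d_nt.PN.EntriesU
import Pool.Agent.Work.MP_d3517d_nt.PN.LevP
import Pool.Agent.Work.MP_d3517d_nt.PN.Psi

/-!
# The source of the data (MP_d3517d_nt, partial symbols)

For `9 ∣ M`, `p ∤ M` (any prime `p`) the doubled spaces of modular symbols of levels `M` and `M p` give
`Dat` and `HRep`, with `T_p` and the `T_l`, `U_l` (`l ≠ p`) equal to the integer matrices `Tm M n l`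
of the Hecke operators on the symbols of level `M`.
-/

open Finset Matrix

noncomputable section

namespace Gouvea.PN

open Gouvea.PS (Neta bag bdg bdg_mul_bag bag_mul_bdg bag_apply bdg_apply dat2_π dat2_W dat2_ι Lp)

variable {p : ℕ} [Fact p.Prime]

theorem tV_eq (M n l : ℕ) [NeZero M] : tV M p n l = (Tm M n l).map (Int.cast : ℤ → ℤ_[p]) := by
  rw [Tm_map]
  rfl

/-- **The source.** -/
theorem source (M : ℕ) [NeZero M] (hM : 9 ∣ M) (hpM : ¬ p ∣ M) :
    ∃ (D : Dat p (2 * Fintype.card (Vx M)) (Vx (M * p) × Bool) (Vx M × Bool))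
      (H : HRep D (MvPolynomial {l : ℕ // l.Prime ∧ l ≠ p} ℤ)),
      (∀ n, Even n → ∀ x y, (D.π n * D.W n * D.ι n) x y =
        if x.1.2 = y.1.2 then 0 else ((Tm M n p (x.1.1, x.2) (y.1.1, y.2) : ℤ) : ℤ_[p])) ∧
      (∀ n hn l x y, H.TV n hn (MvPolynomial.X l) x y =
        if x.1.2 = y.1.2 then ((Tm M n l.1 (x.1.1, x.2) (y.1.1, y.2) : ℤ) : ℤ_[p]) else 0) ∧
      (∀ n, D.W n = bag fun _ => Neta p (Vx (M * p)) n) ∧
      (∀ n, D.ι n = bdg fun b => iM M p b n) ∧
      (∀ n, D.π n = bdg fun b => pM M p b n) ∧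
      (∀ n, Even n → Um D.toGam n = bag fun b => uM M p b n) ∧
      (∀ n hn r, H.TE n hn (MvPolynomial.X r) = bdg fun b => tE M p b n r.1) ∧
      ∀ n, Even n → ∀ i j r, H.gr (n + 2 * j) (i + j) (MvPolynomial.X r) =
        (r.1 : ZMod p) ^ j • H.gr n i (MvPolynomial.X r) := by
  have hp : p.Prime := Fact.out
  have hpo : N3 (p : ℤ) := n3_of_not_dvd_level hp hM hpM
  have : NeZero (M * p) := ⟨mul_ne_zero (NeZero.ne M) hp.ne_zero⟩
  have hE : Fintype.card (Vx (M * p)) = (p + 1) * Fintype.card (Vx M) := by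
    rw [card_Vx_mul' (Dvd.intro p rfl) (kap M p) (fun i => kap_mem (p := p) hM i)
      (fun g hg => kap_rep hp hM (NeZero.ne M) hpM hg)]
    rw [Fintype.card_option, Fintype.card_fin]
  obtain ⟨D, hD⟩ := exists_gamU (p := p) (M := M) hM hpM
  have hU : ∀ n, Even n → Um D n =
      bag fun b => Neta p (Vx (M * p)) n * (iM M p (!b) n * pM M p (!b) n - 1) := by
    intro n hn
    rw [hD n]
    exact congrArg bag (funext fun b => (N_mul hn hpo hM hpM b).symm)
  obtain ⟨H, h1, h2, h3⟩ := exists_hrepOf (p := p) hM hE rfl D (iM M p) (pM M p)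
    (fun b n hn => pM_iM hn hpo hM b) hU
    (fun b n l q hn hl hlp hq hqp => tE_comm hn hM hl hlp hq hqp b)
    (fun n l q hn hl hq => tV_comm hn hM hl hq)
    (fun b n l hn hl hlp => tE_W hn b)
    (fun b n l hn hl hlp => tE_iM hn hpo hM hl hlp b)
    (fun b n l hn hl hlp => pM_tE hn hM hpM hl hlp b)
  refine ⟨_, H, fun n hn x y => ?_, fun n hn l x y => ?_, fun n => rfl, fun n => rfl, fun n => rfl,
    fun n _ => hD n, h1, h3⟩
  · rw [dat2_π, dat2_W, dat2_ι, bdg_mul_bag, bag_mul_bdg, bag_apply]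
    split_ifs with h
    · rfl
    · rw [pM_N_iM hn hpo hM hpM, tV_eq]
      rfl
  · rw [h2, bdg_apply, tV_eq]
    rfl

end Gouvea.PN
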