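import Pool.Agent.Work.MP_d3517d_nt.PN.Defs
import Pool.Agent.Work.MP_d3517d_nt.PN.HeckeU

/-!
# The Hecke operators on partial modular symbols commute
-/

open Polynomial Finset Matrix

noncomputable section

namespace Gouvea.PN

section Hecke

variable {k : Type} [CommRing k]

theorem upS_mul {a b d a' b' d' : ℤ} (ha : N3 a) (hd : d ≠ 0) (ha' : N3 a') (hd' : d' ≠ 0) :
    upS a b d * upS a' b' d' = upS (a * a') (a * b' + b * d') (d * d') := by
  apply Subtype.ext
  rw [Submonoid.coe_mul, upS_coe ha hd, upS_coe ha' hd', upS_coe (ha.mul ha') (mul_ne_zero hd hd')]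
  simp

/-- the action of the upper triangular matrices -/
theorem uact (n : ℕ) : UAct (fun a b d (φ : Cusp → Cusp → Fin (n + 1) → k) =>
    act k n (upS a b d) φ) where
  add a b d _ _ x y := map_add _ _ _
  zero a b d _ _ := map_zero _
  mul a b d a' b' d' ha hd ha' hd' x := by
    show act k n (upS a' b' d') (act k n (upS a b d) x) = _
    rw [act_act, upS_mul ha hd.ne' ha' hd'.ne']

theorem hecke_apply_dvd {M n l : ℕ} (h : l ∣ M) (φ : Cusp → Cusp → Fin (n + 1) → k) :
    hecke k M n l φ = Uop (fun a b d (φ : Cusp → Cusp → Fin (n + 1) → k) =>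
      act k n (upS a b d) φ) l φ := by
  rw [hecke, if_pos h, add_zero, LinearMap.sum_apply]
  rfl

theorem hecke_apply_not_dvd {M n l : ℕ} (h : ¬ l ∣ M) (φ : Cusp → Cusp → Fin (n + 1) → k) :
    hecke k M n l φ = Top (fun a b d (φ : Cusp → Cusp → Fin (n + 1) → k) =>
      act k n (upS a b d) φ) l φ := by
  rw [hecke, if_neg h, LinearMap.add_apply, LinearMap.sum_apply]
  rfl

/-- a prime which does not divide `M`, `9 ∣ M`, is not `3` -/
theorem n3_of_not_dvd_level {M l : ℕ} (hl : l.Prime) (hM : 9 ∣ M) (h : ¬ l ∣ M) : N3 (l : ℤ) := by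
  intro h3
  have h4 : 3 ∣ l := by exact_mod_cast h3
  have h5 : 3 = l := (Nat.prime_dvd_prime_iff_eq Nat.prime_three hl).1 h4
  rw [← h5] at h
  exact h (dvd_trans (by norm_num) hM)

/-- all `T_l`, `U_l` commute on functions invariant under `(1 1; 0 1)`. -/
theorem hecke_comm {M l q n : ℕ} (hl : l.Prime) (hq : q.Prime) (hM : 9 ∣ M) (hM0 : M ≠ 0)
    {φ : Cusp → Cusp → Fin (n + 1) → k} (hφ : act k n (upS 1 1 1) φ = φ) :
    hecke k M n l (hecke k M n q φ) = hecke k M n q (hecke k M n l φ) := by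
  by_cases hlq : l = q
  · rw [hlq]
  have hcop : Nat.Coprime l q := (Nat.coprime_primes hl hq).2 hlq
  have hu := uact (k := k) n
  by_cases h1 : l ∣ M
  · by_cases h2 : q ∣ M
    · simp only [hecke_apply_dvd h1, hecke_apply_dvd h2]
      exact hu.Uop_comm l q hl.pos hq.pos φ
    · simp only [hecke_apply_dvd h1, hecke_apply_not_dvd h2]
      exact (hu.Top_Uop_comm hφ q l (n3_of_not_dvd_level hq hM h2) hl.pos hcop.symm).symm
  · by_cases h2 : q ∣ M
    · simp only [hecke_apply_not_dvd h1, hecke_apply_dvd h2]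
      exact hu.Top_Uop_comm hφ l q (n3_of_not_dvd_level hl hM h1) hq.pos hcop
    · simp only [hecke_apply_not_dvd h1, hecke_apply_not_dvd h2]
      exact hu.Top_comm hφ l q (n3_of_not_dvd_level hl hM h1) (n3_of_not_dvd_level hq hM h2) hcop

/-- `T_l`, `U_l` preserve the invariance under `(1 1; 0 1)`. -/
theorem hecke_inv {M l n : ℕ} (hl : l.Prime) (hM : 9 ∣ M)
    {φ : Cusp → Cusp → Fin (n + 1) → k} (hφ : act k n (upS 1 1 1) φ = φ) :
    act k n (upS 1 1 1) (hecke k M n l φ) = hecke k M n l φ := by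
  have hu := uact (k := k) n
  by_cases h1 : l ∣ M
  · rw [hecke_apply_dvd h1]
    exact hu.Uop_inv hφ l hl.pos
  · rw [hecke_apply_not_dvd h1]
    exact hu.Top_inv hφ l (n3_of_not_dvd_level hl hM h1)

/-- symbols are invariant under translation -/
theorem sym_inv {M n : ℕ} {φ : Cusp → Cusp → Fin (n + 1) → k} (hφ : φ ∈ Sym k M n) :
    act k n (upS 1 1 1) φ = φ := by
  refine hφ.2 _ ⟨?_, ?_⟩
  · rw [upS_coe n3_one one_ne_zero, det_fin_two_of]
    norm_num
  · rw [upS_coe n3_one one_ne_zero]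
    simp

/-- the operators at different levels: for `l ∣ M` or `l ∤ M'` and `M ∣ M'` they are the same -/
theorem hecke_congr {M M' n l : ℕ} (h : l ∣ M ↔ l ∣ M') :
    hecke k M n l = hecke k M' n l := by
  unfold hecke
  by_cases h1 : l ∣ M
  · rw [if_pos h1, if_pos (h.1 h1)]
  · rw [if_neg h1, if_neg (fun h2 => h1 (h.2 h2))]

end Hecke

end Gouvea.PN
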