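import Pool.Agent.Work.MP_d3517d_nt.PN.Defs
import Pool.Agent.Work.MP_d3517d_nt.PS.Coord

/-!
# The tree of `Γ₀(9)` on the cusps `a/c`, `9 ∣ c` (MP_d3517d_nt, partial symbols)

The edges are `(g ∞, g (2/9))`, `g` in the group `T9` of integer matrices of determinant `± 1` with
`9 ∣ c`. The indicator function of `0 < z < 1/3` separates the two ends of the edge `(∞, 2/9)` and
of no other edge.
-/

open Polynomial Finset Matrix

noncomputable section

namespace Gouvea.PN

open Gouvea.PS (IsCoc IsTree)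

/-- the integer matrices of determinant `± 1` with `9 ∣ c` -/
def T9 : Subgroup (GL (Fin 2) ℤ) where
  carrier := {g | (9 : ℤ) ∣ (g : Matrix (Fin 2) (Fin 2) ℤ) 1 0}
  one_mem' := by simp
  mul_mem' := by
    intro g h hg hh
    show (9 : ℤ) ∣ ((g * h : GL (Fin 2) ℤ) : Matrix (Fin 2) (Fin 2) ℤ) 1 0
    rw [Units.val_mul, Matrix.mul_apply, Fin.sum_univ_two]
    exact dvd_add (Dvd.dvd.mul_right hg _) (Dvd.dvd.mul_left hh _)
  inv_mem' := by
    intro g hg
    show (9 : ℤ) ∣ ((g⁻¹ : GL (Fin 2) ℤ) : Matrix (Fin 2) (Fin 2) ℤ) 1 0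
    rw [Matrix.coe_units_inv, Matrix.inv_def, Matrix.adjugate_fin_two]
    simp only [Matrix.smul_apply, smul_eq_mul]
    refine Dvd.dvd.mul_left ?_ _
    simpa using hg

/-- the matrix of an element of `T9` -/
def mt (g : T9) : Matrix (Fin 2) (Fin 2) ℤ := ((g : GL (Fin 2) ℤ) : Matrix _ _ ℤ)

lemma mt_det' (g : T9) : (mt g).det = 1 ∨ (mt g).det = -1 := by
  have h : IsUnit (mt g).det := (Matrix.isUnit_iff_isUnit_det _).1 (g : GL (Fin 2) ℤ).isUnit
  exact Int.isUnit_iff.1 h

lemma mt_det (g : T9) : (mt g) 0 0 * (mt g) 1 1 - (mt g) 0 1 * (mt g) 1 0 = 1 ∨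
    (mt g) 0 0 * (mt g) 1 1 - (mt g) 0 1 * (mt g) 1 0 = -1 := by
  have := mt_det' g
  rwa [det_fin_two] at this

lemma mt_dvd (g : T9) : (9 : ℤ) ∣ mt g 1 0 := g.2

lemma mt_n3 (g : T9) : N3 (mt g 0 0) := by
  intro h
  have h3 : (3 : ℤ) ∣ mt g 1 0 := Dvd.dvd.trans (by norm_num) (mt_dvd g)
  have h4 : (3 : ℤ) ∣ (mt g) 0 0 * (mt g) 1 1 - (mt g) 0 1 * (mt g) 1 0 :=
    dvd_sub (h.mul_right _) (h3.mul_left _)
  rcases mt_det g with h1 | h1
  · rw [h1] at h4; revert h4; decide
  · rw [h1] at h4; revert h4; decide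

/-- `T9 → S9` -/
def toS : T9 →* S9 where
  toFun g := ⟨mt g, by
    refine ⟨?_, mt_n3 g, mt_dvd g⟩
    rcases mt_det' g with h | h <;> rw [h] <;> norm_num⟩
  map_one' := rfl
  map_mul' _ _ := rfl

@[simp] lemma toS_coe (g : T9) : (toS g).1 = mt g := rfl

lemma isG0_toS {g : T9} (hg : (mt g).det = 1) : IsG0 9 (toS g) := ⟨hg, mt_dvd g⟩

lemma exists_mt (A : Matrix (Fin 2) (Fin 2) ℤ) (h : A.det = 1 ∨ A.det = -1)
    (h9 : (9 : ℤ) ∣ A 1 0) : ∃ g : T9, mt g = A := by
  have hu : IsUnit A := (Matrix.isUnit_iff_isUnit_det _).2 (Int.isUnit_iff.2 h)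
  obtain ⟨u, hu'⟩ := hu
  refine ⟨⟨u, ?_⟩, hu'⟩
  show (9 : ℤ) ∣ (u : Matrix (Fin 2) (Fin 2) ℤ) 1 0
  rw [hu']
  exact h9

lemma exists_toS {g : S9} (hg : IsG0 9 g) : ∃ h : T9, toS h = g := by
  obtain ⟨h, hh⟩ := exists_mt g.1 (Or.inl hg.1) hg.2
  exact ⟨h, Subtype.ext hh⟩

instance : MulAction T9 Cusp := MulAction.compHom Cusp toS

lemma g9_smul (g : T9) (x : Cusp) : g • x = toS g • x := rfl

lemma g9_mk (a b c d : ℤ) (h : a * d - b * c = 1 ∨ a * d - b * c = -1) (h9 : (9 : ℤ) ∣ c) :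
    ∃ g : T9, mt g = !![a, b; c, d] :=
  exists_mt _ (by rwa [det_fin_two_of]) (by simpa using h9)

lemma smul_inf (g : T9) : g • inf = Cusp.mk (mt g 0 0) (mt g 1 0) (mt_n3 g) (mt_dvd g) := by
  obtain ⟨h1, h2, h⟩ := smul_mk (toS g) 1 0 n3_one (by simp)
  rw [g9_smul, inf, h, Cusp.mk_eq]
  simp

lemma n3_qrt (g : T9) : N3 (2 * mt g 0 0 + 9 * mt g 0 1) :=
  (n3_two.mul (mt_n3 g)).add_dvd (Dvd.dvd.mul_right (by norm_num) _)

lemma dvd_qrt (g : T9) : (9 : ℤ) ∣ (2 * mt g 1 0 + 9 * mt g 1 1) :=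
  dvd_add ((mt_dvd g).mul_left _) (Dvd.intro _ rfl)

lemma smul_qrt (g : T9) : g • qrt =
    Cusp.mk (2 * mt g 0 0 + 9 * mt g 0 1) (2 * mt g 1 0 + 9 * mt g 1 1) (n3_qrt g)
      (dvd_qrt g) := by
  obtain ⟨h1, h2, h⟩ := smul_mk (toS g) 2 9 n3_two (by simp)
  rw [g9_smul, qrt, h, Cusp.mk_eq]
  simp only [toS_coe]
  ring

/-! ### the separating function -/

/-- `0 < x < 1/3` -/
def In : Cusp → Prop := Quotient.lift (fun x : PreCusp => 0 < x.u * x.v ∧ 3 * (x.u * x.v) < x.v * x.v)
  (by
    intro x y (h : x.u * y.v = y.u * x.v)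
    have hx : 0 < x.u * x.u := mul_self_pos.2 x.hu.ne_zero
    have hy : 0 < y.u * y.u := mul_self_pos.2 y.hu.ne_zero
    have e1 : (y.u * y.u) * (x.u * x.v) = (x.u * x.u) * (y.u * y.v) := by
      linear_combination (-x.u * y.u) * h
    have e2 : (y.u * y.u) * (x.v * x.v) = (x.u * x.u) * (y.v * y.v) := by
      linear_combination (-(x.u * y.v) - y.u * x.v) * h
    have key1 : 0 < x.u * x.v ↔ 0 < y.u * y.v := by
      rw [← mul_pos_iff_of_pos_left hy, e1, mul_pos_iff_of_pos_left hx]
    have key2 : 3 * (x.u * x.v) < x.v * x.v ↔ 3 * (y.u * y.v) < y.v * y.v := by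
      rw [← mul_lt_mul_iff_right₀ hy, ← mul_lt_mul_iff_right₀ (b := 3 * (y.u * y.v)) hx, e2]
      have : y.u * y.u * (3 * (x.u * x.v)) = x.u * x.u * (3 * (y.u * y.v)) := by
        linear_combination 3 * e1
      rw [this]
    exact propext (and_congr key1 key2))

lemma in_mk {u v : ℤ} {hu hv} :
    In (Cusp.mk u v hu hv) ↔ 0 < u * v ∧ 3 * (u * v) < v * v := Iff.rfl

/-- two neighbours, positive denominators -/
lemma sep_pos {a C a' C' : ℤ} (ha' : N3 a') (h : a * C' - a' * C = 1 ∨ a * C' - a' * C = -1)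
    (hC : 0 < C) (hC' : 0 < C') (h1 : 0 < a) (h2 : a < 3 * C)
    (hn : ¬ (0 < a' ∧ a' < 3 * C')) : False := by
  rcases lt_trichotomy a' 0 with h3 | h3 | h3
  · have e1 : 1 * 1 ≤ a * C' := mul_le_mul (by omega) (by omega) (by norm_num) (by omega)
    have e2 : 1 * 1 ≤ (-a') * C := mul_le_mul (by omega) (by omega) (by norm_num) (by omega)
    rcases h with h | h <;> nlinarith
  · exact ha'.ne_zero h3
  · have h4 : 3 * C' ≤ a' := by
      by_contra h5
      exact hn ⟨h3, by omega⟩
    have h5 : 3 * C' + 1 ≤ a' := by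
      rcases h4.eq_or_lt with h6 | h6
      · exact absurd (Dvd.intro C' h6) ha'
      · omega
    have h6 : a ≤ 3 * C - 1 := by omega
    have e1 : a * C' ≤ (3 * C - 1) * C' := mul_le_mul_of_nonneg_right h6 hC'.le
    have e2 : (3 * C' + 1) * C ≤ a' * C := mul_le_mul_of_nonneg_right h5 hC.le
    rcases h with h | h <;> nlinarith

/-- `(a : 9C)` is in `(0, 1/3)`, its neighbour `(a' : 9C')` is not: they are `1/9` or `2/9`
and `∞`. -/
lemma sep {a C a' C' : ℤ} (ha : N3 a) (ha' : N3 a')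
    (h : a * C' - a' * C = 1 ∨ a * C' - a' * C = -1)
    (h1 : In (Cusp.mk a (9 * C) ha (Dvd.intro _ rfl)))
    (h2 : ¬ In (Cusp.mk a' (9 * C') ha' (Dvd.intro _ rfl))) :
    C' = 0 ∧ (a' = 1 ∨ a' = -1) ∧
      (((a = 1 ∨ a = 2) ∧ C = 1) ∨ ((a = -1 ∨ a = -2) ∧ C = -1)) := by
  rw [in_mk] at h1 h2
  obtain ⟨h3, h4⟩ := h1
  have hC0 : C ≠ 0 := by rintro rfl; simp at h3
  by_cases hC' : C' = 0
  · refine ⟨hC', ?_⟩
    rw [hC'] at h
    have h5 : a' * C = 1 ∨ a' * C = -1 := by
      rcases h with h | h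
      · right; linarith
      · left; linarith
    have h6 : C = 1 ∨ C = -1 := by
      have : IsUnit C := by
        rcases h5 with h5 | h5
        · exact IsUnit.of_mul_eq_one_right a' h5
        · exact IsUnit.of_mul_eq_one_right (-a') (by linarith)
      exact Int.isUnit_iff.1 this
    refine ⟨?_, ?_⟩
    · rcases h6 with h7 | h7
      · rw [h7, mul_one] at h5
        exact h5
      · rw [h7] at h5
        rcases h5 with h8 | h8
        · right; linarith
        · left; linarith
    · rcases h6 with rfl | rfl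
      · left; refine ⟨?_, rfl⟩
        have e1 : 0 < a := by nlinarith
        have e2 : a < 3 := by nlinarith
        omega
      · right; refine ⟨?_, rfl⟩
        have e1 : a < 0 := by nlinarith
        have e2 : -3 < a := by nlinarith
        omega
  · exfalso
    rcases lt_or_gt_of_ne hC0 with hC | hC <;> rcases lt_or_gt_of_ne hC' with hC1 | hC1
    · refine sep_pos (a := -a) (C := -C) (a' := -a') (C' := -C') ha'.neg ?_ (by omega) (by omega)
        (by nlinarith) (by nlinarith) ?_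
      · rcases h with h | h
        · left; linarith
        · right; linarith
      · rintro ⟨h5, h6⟩
        exact h2 ⟨by nlinarith, by nlinarith⟩
    · refine sep_pos (a := -a) (C := -C) (a' := a') (C' := C') ha' ?_ (by omega) (by omega)
        (by nlinarith) (by nlinarith) ?_
      · rcases h with h | h
        · right; linarith
        · left; linarith
      · rintro ⟨h5, h6⟩
        exact h2 ⟨by positivity, by nlinarith⟩
    · refine sep_pos (a := a) (C := C) (a' := -a') (C' := -C') ha'.neg ?_ (by omega) (by omega)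
        (by nlinarith) (by nlinarith) ?_
      · rcases h with h | h
        · right; linarith
        · left; linarith
      · rintro ⟨h5, h6⟩
        exact h2 ⟨by nlinarith, by nlinarith⟩
    · refine sep_pos (a := a) (C := C) (a' := a') (C' := C') ha' h hC hC1
        (by nlinarith) (by nlinarith) ?_
      rintro ⟨h5, h6⟩
      exact h2 ⟨by positivity, by nlinarith⟩

/-- the two ends of an edge as neighbours -/
lemma edge_data (g : T9) : ∃ C C' : ℤ, mt g 1 0 = 9 * C ∧ 2 * mt g 1 0 + 9 * mt g 1 1 = 9 * C' ∧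
    C' = 2 * C + mt g 1 1 ∧
    (mt g 0 0 * C' - (2 * mt g 0 0 + 9 * mt g 0 1) * C = 1 ∨
      mt g 0 0 * C' - (2 * mt g 0 0 + 9 * mt g 0 1) * C = -1) := by
  obtain ⟨C, hC⟩ := mt_dvd g
  refine ⟨C, 2 * C + mt g 1 1, hC, by rw [hC]; ring, rfl, ?_⟩
  have := mt_det g
  rw [hC] at this
  rcases this with h | h
  · left; linear_combination h
  · right; linear_combination h

/-- the edge `(g ∞, g (2/9))` enters `(0, 1/3)` only for `g = ± 1` -/
lemma in_qrt {g : T9} (h1 : In (g • qrt)) (h2 : ¬ In (g • inf)) :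
    mt g = 1 ∨ mt g = -1 := by
  obtain ⟨C, C', hC, hC', hCC, h⟩ := edge_data g
  have h1' : In (Cusp.mk (2 * mt g 0 0 + 9 * mt g 0 1) (9 * C') (n3_qrt g)
      (Dvd.intro _ rfl)) := by
    rw [smul_qrt, in_mk, hC'] at h1
    exact h1
  have h2' : ¬ In (Cusp.mk (mt g 0 0) (9 * C) (mt_n3 g) (Dvd.intro _ rfl)) := by
    rw [smul_inf, in_mk, hC] at h2
    exact h2
  obtain ⟨e1, e0, e2⟩ := sep (n3_qrt g) (mt_n3 g) (by
    rcases h with h | h
    · right; linarith
    · left; linarith) h1' h2'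
  have e3 : mt g 1 0 = 0 := by rw [hC, e1, mul_zero]
  have e4 : C' = mt g 1 1 := by omega
  have key : (mt g 0 0 = 1 ∧ mt g 0 1 = 0 ∧ mt g 1 1 = 1) ∨
      (mt g 0 0 = -1 ∧ mt g 0 1 = 0 ∧ mt g 1 1 = -1) := by omega
  rcases key with ⟨e5, e6, e7⟩ | ⟨e5, e6, e7⟩
  · left
    ext i j
    fin_cases i <;> fin_cases j <;> simp [e3, e5, e6, e7]
  · right
    ext i j
    fin_cases i <;> fin_cases j <;> simp [e3, e5, e6, e7]

/-- no edge leaves `(0, 1/3)` -/
lemma not_in_qrt {g : T9} (h1 : In (g • inf)) : In (g • qrt) := by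
  by_contra h2
  obtain ⟨C, C', hC, hC', hCC, h⟩ := edge_data g
  have h2' : ¬ In (Cusp.mk (2 * mt g 0 0 + 9 * mt g 0 1) (9 * C') (n3_qrt g)
      (Dvd.intro _ rfl)) := by
    rw [smul_qrt, in_mk, hC'] at h2
    exact h2
  have h1' : In (Cusp.mk (mt g 0 0) (9 * C) (mt_n3 g) (Dvd.intro _ rfl)) := by
    rw [smul_inf, in_mk, hC] at h1
    exact h1
  obtain ⟨e1, e0, e2⟩ := sep (mt_n3 g) (n3_qrt g) h h1' h2'
  omega

/-! ### descent -/

/-- two cusps joined by an edge -/
def Adj (x y : Cusp) : Prop := ∃ g : T9, (x = g • inf ∧ y = g • qrt) ∨ (y = g • inf ∧ x = g • qrt)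

lemma adj_of {u C u' C' : ℤ} (hu : N3 u) (hu' : N3 u')
    (h : u * C' - u' * C = 1 ∨ u * C' - u' * C = -1)
    (hr : (9 : ℤ) ∣ u' - 2 * u ∨ (9 : ℤ) ∣ u' + 2 * u) :
    Adj (Cusp.mk u (9 * C) hu (Dvd.intro _ rfl)) (Cusp.mk u' (9 * C') hu' (Dvd.intro _ rfl)) := by
  wlog hs : (9 : ℤ) ∣ u' - 2 * u generalizing u' C'
  · have hs' : (9 : ℤ) ∣ (-u') - 2 * u := by
      rcases hr with hr | hr
      · exact absurd hr hs
      · have e : -u' - 2 * u = -(u' + 2 * u) := by ring
        rw [e]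
        exact (dvd_neg).2 hr
    have := this (u' := -u') (C' := -C') hu'.neg (by
      rcases h with h | h
      · right; linarith
      · left; linarith) (Or.inl hs') hs'
    have e : Cusp.mk (-u') (9 * (-C')) hu'.neg (Dvd.intro _ rfl) =
        Cusp.mk u' (9 * C') hu' (Dvd.intro _ rfl) := by
      rw [Cusp.mk_eq]; ring
    rwa [e] at this
  obtain ⟨b, hb⟩ := hs
  obtain ⟨g, hg⟩ := g9_mk u b (9 * C) (C' - 2 * C) (by
    have : u' = 2 * u + 9 * b := by linarith
    rw [this] at h
    rcases h with h | h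
    · left; linear_combination h
    · right; linear_combination h) (Dvd.intro _ rfl)
  refine ⟨g, Or.inl ⟨?_, ?_⟩⟩
  · rw [smul_inf, Cusp.mk_eq, show mt g 0 0 = u by rw [hg]; rfl,
      show mt g 1 0 = 9 * C by rw [hg]; rfl]
  · rw [smul_qrt, Cusp.mk_eq, show mt g 0 0 = u by rw [hg]; rfl,
      show mt g 1 0 = 9 * C by rw [hg]; rfl, show mt g 0 1 = b by rw [hg]; rfl,
      show mt g 1 1 = C' - 2 * C by rw [hg]; rfl]
    linear_combination (9 * C') * hb

lemma Adj.symm {x y : Cusp} (h : Adj x y) : Adj y x := by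
  obtain ⟨g, h⟩ := h
  exact ⟨g, h.symm⟩

/-- neighbours whose numerators are not `±` congruent modulo `9` are adjacent -/
lemma adj_of' {u C u' C' : ℤ} (hu : N3 u) (hu' : N3 u')
    (h : u * C' - u' * C = 1 ∨ u * C' - u' * C = -1)
    (hr : ¬ (9 : ℤ) ∣ u' - u) (hr' : ¬ (9 : ℤ) ∣ u' + u) :
    Adj (Cusp.mk u (9 * C) hu (Dvd.intro _ rfl)) (Cusp.mk u' (9 * C') hu' (Dvd.intro _ rfl)) := by
  have key : ((9 : ℤ) ∣ u' - 2 * u ∨ (9 : ℤ) ∣ u' + 2 * u) ∨
      ((9 : ℤ) ∣ u - 2 * u' ∨ (9 : ℤ) ∣ u + 2 * u') := by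
    unfold N3 at hu hu'
    have a1 : u % 9 = 1 ∨ u % 9 = 2 ∨ u % 9 = 4 ∨ u % 9 = 5 ∨ u % 9 = 7 ∨ u % 9 = 8 := by omega
    have a2 : u' % 9 = 1 ∨ u' % 9 = 2 ∨ u' % 9 = 4 ∨ u' % 9 = 5 ∨ u' % 9 = 7 ∨ u' % 9 = 8 := by
      omega
    rcases a1 with a1 | a1 | a1 | a1 | a1 | a1 <;> rcases a2 with a2 | a2 | a2 | a2 | a2 | a2 <;>
      omega
  rcases key with key | key
  · exact adj_of hu hu' h key
  · exact (adj_of hu' hu (by
      rcases h with h | h
      · right; linarith
      · left; linarith) key).symm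

/-- induction along the edges -/
theorem Cusp.conn {Q : Cusp → Prop} (h0 : Q inf) (h1 : ∀ x y, Adj x y → Q x → Q y) :
    ∀ x, Q x := by
  -- a neighbour with the same numerator modulo `9` is reached through the mediant
  have h2 : ∀ (u C u' C' : ℤ) (hu : N3 u) (hu' : N3 u'),
      (u * C' - u' * C = 1 ∨ u * C' - u' * C = -1) →
      Q (Cusp.mk u (9 * C) hu (Dvd.intro _ rfl)) →
      Q (Cusp.mk u' (9 * C') hu' (Dvd.intro _ rfl)) := by
    intro u C u' C' hu hu' h hQ
    by_cases hr : (9 : ℤ) ∣ u' - u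
    · have hm : N3 (u + u') := by unfold N3 at *; omega
      have e1 : Adj (Cusp.mk u (9 * C) hu (Dvd.intro _ rfl))
          (Cusp.mk (u + u') (9 * (C + C')) hm (Dvd.intro _ rfl)) := by
        refine adj_of' hu hm ?_ ?_ ?_
        · rcases h with h | h
          · left; linarith
          · right; linarith
        · unfold N3 at *; omega
        · unfold N3 at *; omega
      have e2 : Adj (Cusp.mk (u + u') (9 * (C + C')) hm (Dvd.intro _ rfl))
          (Cusp.mk u' (9 * C') hu' (Dvd.intro _ rfl)) := by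
        refine adj_of' hm hu' ?_ ?_ ?_
        · rcases h with h | h
          · left; linarith
          · right; linarith
        · unfold N3 at *; omega
        · unfold N3 at *; omega
      exact h1 _ _ e2 (h1 _ _ e1 hQ)
    · by_cases hr' : (9 : ℤ) ∣ u' + u
      · have hm : N3 (u - u') := by unfold N3 at *; omega
        have e1 : Adj (Cusp.mk u (9 * C) hu (Dvd.intro _ rfl))
            (Cusp.mk (u - u') (9 * (C - C')) hm (Dvd.intro _ rfl)) := by
          refine adj_of' hu hm ?_ ?_ ?_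
          · rcases h with h | h
            · right; linarith
            · left; linarith
          · unfold N3 at *; omega
          · unfold N3 at *; omega
        have e2 : Adj (Cusp.mk (u - u') (9 * (C - C')) hm (Dvd.intro _ rfl))
            (Cusp.mk u' (9 * C') hu' (Dvd.intro _ rfl)) := by
          refine adj_of' hm hu' ?_ ?_ ?_
          · rcases h with h | h
            · left; linarith
            · right; linarith
          · unfold N3 at *; omega
          · unfold N3 at *; omega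
        exact h1 _ _ e2 (h1 _ _ e1 hQ)
      · exact h1 _ _ (adj_of' hu hu' h hr hr') hQ
  have key : ∀ (m : ℕ) (u : ℤ) (C : ℤ) (hu : N3 u), IsCoprime u C → 0 ≤ C → C ≤ m →
      Q (Cusp.mk u (9 * C) hu (Dvd.intro _ rfl)) := by
    intro m
    induction m with
    | zero =>
      intro u C hu hc h2 h3
      have hC : C = 0 := by push_cast at h3; omega
      have e : Cusp.mk u (9 * C) hu (Dvd.intro _ rfl) = inf := by
        unfold inf
        rw [Cusp.mk_eq, hC]; ring
      rw [e]; exact h0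
    | succ m ih =>
      intro u C hu hc h2' h3
      rcases h2'.eq_or_lt with hC | hC
      · have e : Cusp.mk u (9 * C) hu (Dvd.intro _ rfl) = inf := by
          unfold inf
          rw [Cusp.mk_eq, ← hC]; ring
        rw [e]; exact h0
      · obtain ⟨s, t, hst⟩ := hc
        -- `C₀ = s mod C`, `u C₀ = 1 + u₀ C`
        set C0 := s % C with hC0
        have hC0a : 0 ≤ C0 := Int.emod_nonneg _ hC.ne'
        have hC0b : C0 < C := Int.emod_lt_of_pos _ hC
        have hs : s = C0 + C * (s / C) := by rw [hC0]; exact (Int.emod_add_mul_ediv s C).symm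
        set u0 := -(t + u * (s / C)) with hu0
        have e1 : u * C0 - u0 * C = 1 := by
          rw [hu0]
          rw [hs] at hst
          linear_combination hst
        by_cases hn : N3 u0
        · have hcop : IsCoprime u0 C0 := ⟨-C, u, by linear_combination e1⟩
          refine h2 u0 C0 u C hn hu (Or.inr (by linarith)) ?_
          exact ih u0 C0 hn hcop hC0a (by push_cast at h3; omega)
        · have hC0c : C0 ≠ 0 := by
            intro h4
            rw [h4] at e1
            have h5 : IsUnit u0 := IsUnit.of_mul_eq_one (-C) (by linarith)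
            rcases Int.isUnit_iff.1 h5 with h6 | h6
            · exact hn (by rw [h6]; exact n3_one)
            · exact hn (by rw [h6]; exact n3_one.neg)
          have e2 : u * (C - C0) - (u - u0) * C = -1 := by linear_combination -e1
          have hn' : N3 (u - u0) := by unfold N3 at *; omega
          have hcop : IsCoprime (u - u0) (C - C0) := ⟨C, -u, by linear_combination -e2⟩
          refine h2 (u - u0) (C - C0) u C hn' hu (Or.inl (by linarith)) ?_
          exact ih (u - u0) (C - C0) hn' hcop (by omega) (by push_cast at h3; omega)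
  intro x
  refine Cusp.ind' (fun u v hu hv => ?_) x
  -- a primitive representative with non negative denominator
  obtain ⟨C, hC⟩ := hv
  wlog hCn : 0 ≤ C generalizing u v C
  · have hv' : -v = 9 * (-C) := by rw [hC]; ring
    have := this (-u) (-v) hu.neg (-C) hv' (by omega)
    have e : Cusp.mk (-u) (-v) hu.neg ⟨-C, hv'⟩ = Cusp.mk u v hu ⟨C, hC⟩ := by
      rw [Cusp.mk_eq]; ring
    rwa [e] at this
  have hg : 0 < Int.gcd u C := Int.gcd_pos_of_ne_zero_left _ hu.ne_zero
  obtain ⟨u1, C1, hcop1, hu1, hC1⟩ := Int.exists_gcd_one hg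
  have hpos : (0 : ℤ) < Int.gcd u C := by exact_mod_cast hg
  have hcop : IsCoprime u1 C1 := Int.isCoprime_iff_gcd_eq_one.2 hcop1
  generalize (Int.gcd u C : ℤ) = w at *
  have hn1 : N3 u1 := by
    rw [hu1] at hu
    exact hu.of_mul_left
  have hC1n : 0 ≤ C1 := by
    by_contra h
    push Not at h
    have : C1 * w < 0 := mul_neg_of_neg_of_pos h hpos
    rw [← hC1] at this
    omega
  have e : Cusp.mk u v hu ⟨C, hC⟩ = Cusp.mk u1 (9 * C1) hn1 (Dvd.intro _ rfl) := by
    rw [Cusp.mk_eq, hC, hC1]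
    rw [hu1]
    ring
  rw [e]
  exact key C1.toNat u1 C1 hn1 hcop hC1n (by rw [Int.toNat_of_nonneg hC1n])

/-! ### the potential -/

/-- `-1 ∈ T9` -/
def ng : T9 := ⟨-1, by
  show (9 : ℤ) ∣ ((-1 : GL (Fin 2) ℤ) : Matrix (Fin 2) (Fin 2) ℤ) 1 0
  simp⟩

lemma mt_mul (g h : T9) : mt (g * h) = mt g * mt h := rfl

lemma mt_one : mt 1 = 1 := rfl

lemma mt_inj {g h : T9} (e : mt g = mt h) : g = h := by
  apply Subtype.ext
  exact Units.ext e

lemma mt_ng : mt ng = -1 := rfl

lemma mt_ng_mul (g : T9) : mt (ng * g) = -mt g := by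
  rw [mt_mul, mt_ng, neg_mul, one_mul]

lemma ng_mul (g : T9) : ng * g = g * ng := by
  apply mt_inj
  rw [mt_mul, mt_mul, mt_ng, neg_mul, mul_neg, one_mul, mul_one]

lemma ng_ng : ng * ng = 1 := by
  apply mt_inj
  rw [mt_mul, mt_ng, mt_one]
  simp

lemma ng_smul (x : Cusp) : ng • x = x := by
  refine Cusp.ind' (P := fun x => ng • x = x) (fun u v hu hv => ?_) x
  obtain ⟨h1, h2, h⟩ := smul_mk (toS ng) u v hu hv
  rw [g9_smul, h, Cusp.mk_eq]
  simp only [toS_coe, mt_ng]
  simp

open Classical in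
/-- `1` on `(0, 1/3)`, `0` elsewhere -/
def ind (x : Cusp) : ℤ := if In x then 1 else 0

lemma ind_edge (g : T9) : ind (g • qrt) - ind (g • inf) = if mt g = 1 ∨ mt g = -1 then 1 else 0 := by
  by_cases h1 : mt g = 1 ∨ mt g = -1
  · rw [if_pos h1]
    have hq : In (g • qrt) ∧ ¬ In (g • inf) := by
      rw [smul_qrt, smul_inf, in_mk, in_mk]
      rcases h1 with h | h <;> rw [h] <;> norm_num
    rw [ind, ind, if_pos hq.1, if_neg hq.2]
    norm_num
  · rw [if_neg h1]
    by_cases h2 : In (g • inf)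
    · rw [ind, ind, if_pos h2, if_pos (not_in_qrt h2)]
      norm_num
    · have h3 : ¬ In (g • qrt) := fun h3 => h1 (in_qrt h3 h2)
      rw [ind, ind, if_neg h2, if_neg h3]
      norm_num

/-- a choice of one of `g, -g` -/
def Pos (g : T9) : Prop := 0 < mt g 0 0

lemma pos_or (g : T9) : Pos g ∨ Pos (ng * g) := by
  unfold Pos
  rw [mt_ng_mul]
  have := (mt_n3 g).ne_zero
  simp only [Matrix.neg_apply]
  omega

lemma not_pos (g : T9) (h : Pos g) : ¬ Pos (ng * g) := by
  unfold Pos at *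
  rw [mt_ng_mul]
  simp only [Matrix.neg_apply] at *
  omega

open Classical in
/-- the number of times the path from `∞` to `x` crosses the edge `g` -/
def dd (g : T9) (x : Cusp) : ℤ := if Pos g then ind (g⁻¹ • x) - ind (g⁻¹ • inf) else 0

lemma dd_inf (g : T9) : dd g inf = 0 := by simp [dd]

open Classical in
lemma dd_edge (g h : T9) : dd g (h • qrt) - dd g (h • inf) =
    if Pos g ∧ (g = h ∨ g = ng * h) then 1 else 0 := by
  by_cases hp : Pos g
  · have e : dd g (h • qrt) - dd g (h • inf) =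
        ind ((g⁻¹ * h) • qrt) - ind ((g⁻¹ * h) • inf) := by
      rw [dd, dd, if_pos hp, if_pos hp, mul_smul, mul_smul]
      ring
    rw [e, ind_edge]
    have : (mt (g⁻¹ * h) = 1 ∨ mt (g⁻¹ * h) = -1) ↔ (Pos g ∧ (g = h ∨ g = ng * h)) := by
      have h1 : mt (g⁻¹ * h) = 1 ↔ g = h := by
        constructor
        · intro h2
          have := mt_inj (g := g⁻¹ * h) (h := 1) h2
          exact (inv_mul_eq_one.1 this)
        · rintro rfl
          rw [inv_mul_cancel, mt_one]
      have h2 : mt (g⁻¹ * h) = -1 ↔ g = ng * h := by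
        constructor
        · intro h2
          have h3 := mt_inj (g := g⁻¹ * h) (h := ng) (by rw [h2, mt_ng])
          have h4 : h = g * ng := by rw [← h3]; simp
          rw [h4, ← mul_assoc, ng_mul, mul_assoc, ng_ng, mul_one]
        · intro h3
          have h4 : g⁻¹ * h = ng := by
            rw [h3, _root_.mul_inv_rev, mul_assoc]
            have : ng⁻¹ = ng := by rw [inv_eq_iff_mul_eq_one]; exact ng_ng
            rw [this, ng_mul, ← mul_assoc, inv_mul_cancel, one_mul]
          rw [h4, mt_ng]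
      rw [h1, h2]
      tauto
    simp only [this]
  · rw [dd, dd, if_neg hp, if_neg hp, if_neg (fun h => hp h.1)]
    ring

lemma dd_finite (x : Cusp) : (Function.support fun g => dd g x).Finite := by
  refine Cusp.conn (Q := fun x => (Function.support fun g => dd g x).Finite) ?_ ?_ x
  · simp [dd_inf]
  · rintro x y ⟨h, hh⟩ hx
    have key : ∀ g, dd g y ≠ 0 → dd g x ≠ 0 ∨ g ∈ ({h, ng * h} : Set T9) := by
      intro g hg
      by_contra hc
      push Not at hc
      have e := dd_edge g h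
      have hne : ¬ (Pos g ∧ (g = h ∨ g = ng * h)) := by
        rintro ⟨-, h3⟩
        exact hc.2 (by simpa using h3)
      rw [if_neg hne] at e
      rcases hh with ⟨hx', hy'⟩ | ⟨hy', hx'⟩
      · rw [← hx', ← hy', hc.1] at e
        exact hg (by linarith)
      · rw [← hx', ← hy', hc.1] at e
        exact hg (by linarith)
    refine (hx.union (Set.toFinite ({h, ng * h} : Set T9))).subset ?_
    intro g hg
    exact key g hg

/-- the path from `∞` to `x` -/
def FF (x : Cusp) : T9 →₀ ℤ := Finsupp.ofSupportFinite (fun g => dd g x) (dd_finite x)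

lemma FF_apply (x : Cusp) (g : T9) : FF x g = dd g x := rfl

lemma FF_inf : FF inf = 0 := by
  ext g
  rw [FF_apply, dd_inf]
  rfl

lemma FF_edge (h : T9) : ∃ h' : T9, (h' = h ∨ h' = ng * h) ∧
    FF (h • qrt) - FF (h • inf) = Finsupp.single h' 1 := by
  classical
  rcases pos_or h with hp | hp
  · refine ⟨h, Or.inl rfl, ?_⟩
    ext g
    rw [Finsupp.sub_apply, FF_apply, FF_apply, dd_edge, Finsupp.single_apply]
    by_cases e : h = g
    · subst e
      simp [hp]
    · rw [if_neg, if_neg e]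
      rintro ⟨h1, h2 | h2⟩
      · exact e h2.symm
      · rw [h2] at h1
        exact not_pos h hp h1
  · refine ⟨ng * h, Or.inr rfl, ?_⟩
    ext g
    rw [Finsupp.sub_apply, FF_apply, FF_apply, dd_edge, Finsupp.single_apply]
    by_cases e : ng * h = g
    · subst e
      simp [hp]
    · rw [if_neg, if_neg e]
      rintro ⟨h1, h2 | h2⟩
      · rw [h2] at h1
        exact not_pos h h1 hp
      · exact e h2.symm

lemma FF_sum {W : Type} [AddCommGroup W] (φ : Cusp → Cusp → W) (hφ : IsCoc φ) (x : Cusp) :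
    φ inf x = (FF x).sum fun g a => a • φ (g • inf) (g • qrt) := by
  have hadd : ∀ F G : T9 →₀ ℤ, (F - G).sum (fun g a => a • φ (g • inf) (g • qrt)) =
      F.sum (fun g a => a • φ (g • inf) (g • qrt)) - G.sum (fun g a => a • φ (g • inf) (g • qrt)) :=
    fun F G => Finsupp.sum_sub_index (fun g a b => sub_smul a b _)
  have hone : ∀ h : T9, FF (h • qrt) - FF (h • inf) = FF (h • qrt) - FF (h • inf) →
      (FF (h • qrt)).sum (fun g a => a • φ (g • inf) (g • qrt)) -
      (FF (h • inf)).sum (fun g a => a • φ (g • inf) (g • qrt)) = φ (h • inf) (h • qrt) := by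
    intro h _
    obtain ⟨h', h1, h2⟩ := FF_edge h
    rw [← hadd, h2, Finsupp.sum_single_index (by simp), one_smul]
    rcases h1 with rfl | rfl
    · rfl
    · rw [mul_smul, mul_smul, ng_smul, ng_smul]
  refine Cusp.conn (Q := fun x => φ inf x = (FF x).sum fun g a => a • φ (g • inf) (g • qrt))
    ?_ ?_ x
  · rw [FF_inf, hφ.self]
    simp
  · rintro x y ⟨h, hh⟩ hx
    have e := hone h rfl
    rcases hh with ⟨hx', hy'⟩ | ⟨hy', hx'⟩
    · rw [← hx', ← hy'] at e
      rw [← hφ inf x y, hx, ← e]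
      abel
    · rw [← hx', ← hy'] at e
      have h3 := hφ inf y x
      rw [← hx] at e
      calc φ inf y = φ inf x - φ y x := by rw [← h3]; abel
        _ = (FF y).sum fun g a => a • φ (g • inf) (g • qrt) := by rw [← e]; abel

/-- `T9 / ± 1` acts simply transitively on the edges of the tree. -/
theorem isTree : IsTree T9 Cusp ng inf qrt where
  triv := ng_smul
  central := ng_mul
  ex := by
    intro W _ Φ hΦ
    refine ⟨fun x y => (FF y - FF x).sum fun g a => a • Φ g, ?_, ?_⟩
    · intro x y z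
      have hs : ∀ F G : T9 →₀ ℤ, (F + G).sum (fun g a => a • Φ g) =
          F.sum (fun g a => a • Φ g) + G.sum (fun g a => a • Φ g) := fun F G =>
        Finsupp.sum_add_index' (fun g => zero_smul _ _) (fun g a b => add_smul a b _)
      show (FF y - FF x).sum (fun g a => a • Φ g) + (FF z - FF y).sum (fun g a => a • Φ g) =
        (FF z - FF x).sum (fun g a => a • Φ g)
      rw [← hs, show FF y - FF x + (FF z - FF y) = FF z - FF x by abel]
    · intro g
      obtain ⟨h', h1, h2⟩ := FF_edge g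
      show ((FF (g • qrt) - FF (g • inf)).sum fun g a => a • Φ g) = Φ g
      rw [h2, Finsupp.sum_single_index (by simp), one_smul]
      rcases h1 with rfl | rfl
      · rfl
      · exact hΦ g
  gen := by
    intro x y
    refine ⟨FF y - FF x, ?_⟩
    intro W _ φ hφ
    rw [Finsupp.sum_sub_index (fun g a b => sub_smul a b _), ← FF_sum φ hφ, ← FF_sum φ hφ,
      ← hφ inf x y]
    abel

end Gouvea.PN
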