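import Pool.Agent.Work.MP_d3517d_nt.PN.Inst
import Pool.Agent.Work.MP_d3517d_nt.PS.GamOf
import Pool.Agent.Work.MP_d3517d_nt.PN.RepB

/-!
# Shapes of the matrices in `U` (MP_d3517d_nt, partial symbols)
-/

open Finset Matrix

noncomputable section

namespace Gouvea.PN

open Gouvea.PS (IsGm IsUp dvd_intCast isUnit_intCast)

variable {p : ℕ} [Fact p.Prime]

/-- the cast to `ℤ_p` -/
abbrev zp (p : ℕ) [Fact p.Prime] (u : Matrix (Fin 2) (Fin 2) ℤ) : Matrix (Fin 2) (Fin 2) ℤ_[p] :=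
  u.map (Int.cast : ℤ → ℤ_[p])

lemma zp_mul (u v : Matrix (Fin 2) (Fin 2) ℤ) : zp p (u * v) = zp p u * zp p v :=
  map_cast_mul u v

/-- integer matrices with the shape of the matrices in `U` -/
lemma isGm_of_int {u : Matrix (Fin 2) (Fin 2) ℤ} (h00 : (p : ℤ) ∣ u 0 0)
    (h10 : (p : ℤ) ∣ u 1 0) (h11 : ¬ (p : ℤ) ∣ u 1 1) : IsGm (zp p u) :=
  ⟨dvd_intCast h00, dvd_intCast h10, isUnit_intCast h11⟩

lemma isUp_of_int' {u : Matrix (Fin 2) (Fin 2) ℤ} (h10 : (p : ℤ) ∣ u 1 0)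
    (h11 : ¬ (p : ℤ) ∣ u 1 1) : IsUp (zp p u) :=
  ⟨dvd_intCast h10, isUnit_intCast h11⟩

lemma not_dvd_one : ¬ (p : ℤ) ∣ 1 := by
  intro h
  have h1 := Int.eq_one_of_dvd_one (by positivity) h
  have h2 := (Fact.out : p.Prime).one_lt
  omega

/-- the matrices `k_j η` -/
lemma isGm_kap {M : ℕ} (hM : 9 ∣ M) (hpM : ¬ p ∣ M) (j : Fin p) :
    IsGm (zp p ((kap M p (some j)).1 * !![0, 1; (p : ℤ), 0])) := by
  rw [kap_some hM]
  refine isGm_of_int ?_ ?_ ?_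
  · rw [Matrix.mul_apply, Fin.sum_univ_two]
    simp
  · rw [Matrix.mul_apply, Fin.sum_univ_two]
    simp
  · rw [Matrix.mul_apply, Fin.sum_univ_two]
    simp only [Matrix.of_apply, Matrix.cons_val', Matrix.cons_val_zero, Matrix.cons_val_one,
      mul_one, mul_zero, add_zero, Matrix.cons_val_fin_one]
    exact_mod_cast hpM

/-- the matrices `s k'_j s η` -/
lemma isGm_kau {M : ℕ} (hM : 9 ∣ M) (j : Fin p) :
    IsGm (zp p (!![0, 1; 1, 0] * (kau M p (some j)).1 * !![0, 1; 1, 0] *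
      !![0, 1; (p : ℤ), 0])) := by
  rw [kau_some hM]
  have h : (!![0, 1; 1, 0] * !![1 + (M : ℤ) * ((j : ℕ) : ℤ), 1; (M : ℤ) * (j : ℕ), 1] *
      !![0, 1; 1, 0] * !![0, 1; (p : ℤ), 0] : Matrix (Fin 2) (Fin 2) ℤ) =
      !![(p : ℤ) * (M * (j : ℕ)), 1; (p : ℤ) * (1 + M * (j : ℕ)), 1] := by
    ext a b
    fin_cases a <;> fin_cases b <;> simp [Matrix.mul_apply, Fin.sum_univ_two] <;> ring
  rw [h]
  refine isGm_of_int ?_ ?_ ?_
  · simp
  · simp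
  · simpa using not_dvd_one

/-- elements of `Γ₀(Mp)` -/
lemma isUp_G0 {M : ℕ} {g : T9} (hg : g ∈ G0 (M * p)) : IsUp (zp p (mt g⁻¹)) := by
  have h1 : (p : ℤ) ∣ mt g 1 0 :=
    dvd_trans (by push_cast; exact Dvd.intro_left _ rfl) (mem_G0.1 hg).2
  have h2 : mt g 0 0 * mt g 1 1 - mt g 0 1 * mt g 1 0 = 1 := by
    have h3 := (mem_G0.1 hg).1
    rwa [Matrix.det_fin_two] at h3
  rw [mt_inv hg]
  refine isUp_of_int' ?_ ?_
  · simpa using h1
  · intro h3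
    apply not_dvd_one (p := p)
    rw [← h2]
    exact dvd_sub (Dvd.dvd.mul_right (by simpa using h3) _) (h1.mul_left _)

/-- elements of `Γ₀(Mp)`, conjugated by `η` -/
lemma isUp_G0' {M : ℕ} {g : T9} (hg : g ∈ G0 (M * p)) (u : Matrix (Fin 2) (Fin 2) ℤ)
    (hu : u = mt g⁻¹) : IsUp (zp p !![u 1 1, u 1 0 / p; p * u 0 1, u 0 0]) := by
  have h1 : (p : ℤ) ∣ mt g 1 0 :=
    dvd_trans (by push_cast; exact Dvd.intro_left _ rfl) (mem_G0.1 hg).2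
  have h2 : mt g 0 0 * mt g 1 1 - mt g 0 1 * mt g 1 0 = 1 := by
    have h3 := (mem_G0.1 hg).1
    rwa [Matrix.det_fin_two] at h3
  rw [hu, mt_inv hg]
  refine isUp_of_int' ?_ ?_
  · simp
  · intro h3
    apply not_dvd_one (p := p)
    rw [← h2]
    exact dvd_sub (Dvd.dvd.mul_left (by simpa using h3) _) (h1.mul_left _)

end Gouvea.PN
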