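import Pool.Agent.Work.MP_d3517d_nt.PS.HRepOf
import Pool.Agent.Work.MP_d3517d_nt.PN.MatOf
import Pool.Agent.Work.MP_d3517d_nt.PN.Shapes

/-!
# The Hecke operators on the doubled data of level `9 ∣ M`: triangularity and graded pieces

Port of `PS/HRepOf.lean` (MP_d3517d_nt): the matrices `tE M p b n l` (`l ≠ p` prime) of `T_l`,
`U_l` on the two copies at level `M p` are triangular modulo `p` (`tE_tri`), their graded pieces are
`gE M p b n i l` (`tE_gr`), periodic in `n` and `i` (`gE_n`, `gE_i`), and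
`gE (n + 2 j) (i + j) = l ^ j • gE n i` (`gE_twist`).
-/

set_option autoImplicit false

open Finset Matrix

noncomputable section

namespace Gouvea.PN

open Gouvea.PS (IsUZ cb cb_mul det_cb det_zp opM opG opM_tri opM_gr opG_n opG_i opG_twist Lp Neta
  bag bdg dat2 exists_hrep2 dvd_intCast isUnit_intCast)

variable {p : ℕ} [Fact p.Prime]

/-! ### shapes -/

lemma isUZ_G0 {M : ℕ} (g : G0 (M * p)) : IsUZ p (mt (g : T9)⁻¹) := by
  refine ⟨?_, ?_⟩
  · rw [det_mt ((G0 (M * p)).inv_mem g.2)]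
    exact not_dvd_one
  · rw [mt_inv_10 g.2, dvd_neg]
    exact mt_dvd_p g

lemma isUZ_bet {M l : ℕ} (hM : 9 ∣ M) (hl : l.Prime) (hlp : l ≠ p) (i : Ix M l) :
    IsUZ p (bet M l i).1 := by
  have h := del_bet hl hM i
  refine ⟨?_, ?_⟩
  · rw [h.1]
    intro h1
    have h2 : p ∣ l := by exact_mod_cast h1
    exact hlp ((Nat.prime_dvd_prime_iff_eq Fact.out hl).1 h2).symm
  · rcases i with b | u
    · rw [bet_inl hl]
      exact dvd_zero _
    · rw [bet_inr hl hM]
      exact dvd_zero _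

/-! ### the two copies -/

variable (M : ℕ)

/-- the conjugating matrices -/
def cB (b : Bool) (g : G0 (M * p)) : Matrix (Fin 2) (Fin 2) ℤ_[p] :=
  zp p (cb p b (mt (g : T9)⁻¹))

lemma rhoE_eq (b : Bool) (n : ℕ) (g : G0 (M * p)) : rhoE M p b n g = slM n (cB M b g) := by
  cases b <;> rfl

/-- the matrices of `T_l` on the two copies -/
def aB (b : Bool) (l : ℕ) (i : Ix M l) : Matrix (Fin 2) (Fin 2) ℤ_[p] :=
  zp p (cb p b (bet M l i).1)

lemma tE_eq (b : Bool) (n l : ℕ) : tE M p b n l =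
    opM (lev0 (M * p)) isTree (lev0 (M * p)) (rhoE M p b n)
      (fun i : Ix M l => slM n (aB M b l i)) (fun i (x : Cusp) => bet M l i • x) := by
  cases b <;> rfl

/-- the graded pieces of the matrices of `T_l` on the two copies -/
def gE (M p : ℕ) [Fact p.Prime] (b : Bool) (n i l : ℕ) :
    Matrix (Vx (M * p)) (Vx (M * p)) (ZMod p) :=
  opG (lev0 (M * p)) (lev0 (M * p)) isTree (cB M b) (fun j : Ix M l => aB M b l j)
    (fun i (x : Cusp) => bet M l i • x) n i

variable {M}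

section

variable {l : ℕ} (hM : 9 ∣ M) (hl : l.Prime) (hlp : l ≠ p) (b : Bool)
include hM hl hlp

lemma cBaB (g : G0 (M * p)) (j : Ix M l) :
    ∃ u, IsUZ p u ∧ u.det = l ∧ cB M b g * aB M b l j = zp p u := by
  have h1 := isUZ_G0 g
  have h2 := isUZ_bet (p := p) hM hl hlp j
  refine ⟨cb p b (mt (g : T9)⁻¹ * (bet M l j).1), (h1.mul h2).cb b, ?_, ?_⟩
  · rw [det_cb (h1.mul h2), Matrix.det_mul, det_mt ((G0 (M * p)).inv_mem g.2), one_mul]
    exact (del_bet hl hM j).1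
  · rw [cb_mul h1 h2, zp_mul]
    rfl

/-- `T_l` is triangular modulo `p`. -/
theorem tE_tri (n : ℕ) (x y : Vx (M * p) × Fin (n + 1)) (hxy : y.2 < x.2) :
    (p : ℤ_[p]) ∣ tE M p b n l x y := by
  rw [tE_eq]
  refine opM_tri (lev0 (M * p)) (lev0 (M * p)) isTree (cB M b) _ _ (rhoE_eq M b n)
    (fun g j => ?_) x y hxy
  obtain ⟨u, h1, -, h3⟩ := cBaB hM hl hlp b g j
  rw [h3]
  exact h1.dvd10

/-- the graded pieces of `T_l` -/
theorem tE_gr (n : ℕ) (i : Fin (n + 1)) (e e' : Vx (M * p)) :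
    PadicInt.toZMod (tE M p b n l (e, i) (e', i)) = gE M p b n i l e e' := by
  rw [tE_eq]
  refine opM_gr (lev0 (M * p)) (lev0 (M * p)) isTree (cB M b) _ _ (rhoE_eq M b n)
    (fun g j => ?_) (fun g j => ?_) i e e'
  · obtain ⟨u, h1, -, h3⟩ := cBaB hM hl hlp b g j
    rw [h3]
    exact h1.dvd10
  · obtain ⟨u, h1, -, h3⟩ := cBaB hM hl hlp b g j
    rw [h3]
    exact h1.unit11

/-- the graded pieces are periodic in the weight -/
theorem gE_n (n i : ℕ) : gE M p b (n + (p - 1)) i l = gE M p b n i l := by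
  refine opG_n (lev0 (M * p)) (lev0 (M * p)) isTree (cB M b) _ _ (fun g j => ?_) n i
  obtain ⟨u, h1, -, h3⟩ := cBaB hM hl hlp b g j
  rw [h3]
  exact h1.unit11

/-- the graded pieces are periodic in the level -/
theorem gE_i (n i : ℕ) : gE M p b n (i + (p - 1)) l = gE M p b n i l := by
  refine opG_i (lev0 (M * p)) (lev0 (M * p)) isTree (cB M b) _ _ (fun g j => ?_)
    (fun g j => ?_) n i
  · obtain ⟨u, h1, -, h3⟩ := cBaB hM hl hlp b g j
    rw [h3]
    exact h1.unit00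
  · obtain ⟨u, h1, -, h3⟩ := cBaB hM hl hlp b g j
    rw [h3]
    exact h1.unit11

/-- **Twist.** -/
theorem gE_twist (n i j : ℕ) :
    gE M p b (n + 2 * j) (i + j) l = (l : ZMod p) ^ j • gE M p b n i l := by
  refine opG_twist (lev0 (M * p)) (lev0 (M * p)) isTree (cB M b) _ _ (l : ZMod p)
    (fun g j => ?_) (fun g j => ?_) (fun g j => ?_) n i j
  · obtain ⟨u, h1, -, h3⟩ := cBaB hM hl hlp b g j
    rw [h3]
    exact h1.dvd10
  · obtain ⟨u, h1, -, h3⟩ := cBaB hM hl hlp b g j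
    rw [h3]
    exact h1.unit11
  · obtain ⟨u, -, h2, h3⟩ := cBaB hM hl hlp b g j
    rw [h3, det_zp, h2]
    simp

end

/-! ### the Hecke ring -/

/-- **The Hecke action on the doubled data**, from the relations. -/
theorem exists_hrepOf [NeZero M] (hM : 9 ∣ M) {h : ℕ}
    (hE : Fintype.card (Vx (M * p)) = (p + 1) * h) (hV : Fintype.card (Vx M) = h)
    (D : Gam p (Vx (M * p) × Bool))
    (ι : Bool → ∀ n : ℕ, Matrix (Vx (M * p) × Fin (n + 1)) (Vx M × Fin (n + 1)) ℤ_[p])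
    (π : Bool → ∀ n : ℕ, Matrix (Vx M × Fin (n + 1)) (Vx (M * p) × Fin (n + 1)) ℤ_[p])
    (hπι : ∀ b n, Even n → π b n * ι b n = ((p : ℤ_[p]) + 1) • 1)
    (hU : ∀ n, Even n → Um D n = bag fun b => Neta p (Vx (M * p)) n * (ι (!b) n * π (!b) n - 1))
    (hcE : ∀ b n l q, Even n → l.Prime → l ≠ p → q.Prime → q ≠ p →
      tE M p b n l * tE M p b n q = tE M p b n q * tE M p b n l)
    (hcV : ∀ n l q, Even n → l.Prime → q.Prime →
      tV M p n l * tV M p n q = tV M p n q * tV M p n l)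
    (hW : ∀ b n l, Even n → l.Prime → l ≠ p →
      tE M p b n l * Neta p (Vx (M * p)) n = Neta p (Vx (M * p)) n * tE M p (!b) n l)
    (hι : ∀ b n l, Even n → l.Prime → l ≠ p → tE M p b n l * ι b n = ι b n * tV M p n l)
    (hπ : ∀ b n l, Even n → l.Prime → l ≠ p → π b n * tE M p b n l = tV M p n l * π b n) :
    ∃ H : HRep (dat2 hE hV D ι π hπι hU) (MvPolynomial (Lp p) ℤ),
      (∀ n hn r, H.TE n hn (MvPolynomial.X r) = bdg fun b => tE M p b n r.1) ∧
      (∀ n hn r, H.TV n hn (MvPolynomial.X r) = bdg fun _ => tV M p n r.1) ∧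
      ∀ n, Even n → ∀ i j r, H.gr (n + 2 * j) (i + j) (MvPolynomial.X r) =
        (r.1 : ZMod p) ^ j • H.gr n i (MvPolynomial.X r) := by
  obtain ⟨H, h1, h2, h3⟩ := exists_hrep2 hE hV D ι π hπι hU (Q := Lp p)
    (fun b n _ r => tE M p b n r.1) (fun _ n _ r => tV M p n r.1)
    (fun b n hn r s => hcE b n _ _ hn r.2.1 r.2.2 s.2.1 s.2.2)
    (fun b n hn r s => hcV n _ _ hn r.2.1 s.2.1)
    (fun b n hn r => hW b n _ hn r.2.1 r.2.2)
    (fun b n hn r => hι b n _ hn r.2.1 r.2.2)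
    (fun b n hn r => hπ b n _ hn r.2.1 r.2.2)
    (fun b n hn r x y hxy => tE_tri hM r.2.1 r.2.2 b n x y hxy)
    (fun b n i r => gE M p b n i r.1)
    (fun b n hn r i e e' => tE_gr hM r.2.1 r.2.2 b n i e e')
    (fun b n i r => gE_n hM r.2.1 r.2.2 b n i)
    (fun b n i r => gE_i hM r.2.1 r.2.2 b n i)
  refine ⟨H, h1, h2, fun n hn i j r => ?_⟩
  rw [h3 n hn, h3 (n + 2 * j) (hn.add (even_two_mul j))]
  ext e e'
  simp only [Matrix.of_apply, Matrix.smul_apply]
  split_ifs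
  · rw [gE_twist hM r.2.1 r.2.2, Matrix.smul_apply]
  · rw [smul_zero]

end Gouvea.PN
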