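import Pool.Agent.Work.MP_d3517d_nt.PN.Inst

/-!
# The classes `Γ₀(M) \ T9` (MP_d3517d_nt, partial symbols)
-/

open Finset Matrix

noncomputable section

namespace Gouvea.PN

open Gouvea.PS (IsCoc IsTree Symb mem_Symb Lev)

/-- `Γ₀(M) \ T9` -/
def Vx (M : ℕ) : Type := Quotient (QuotientGroup.rightRel (G0 M))

/-- the class of `g` -/
def vx (M : ℕ) (g : T9) : Vx M := Quotient.mk _ g

/-- chosen representatives -/
def rp (M : ℕ) (v : Vx M) : T9 := Quotient.out v

lemma vx_eq {M : ℕ} {g h : T9} : vx M g = vx M h ↔ h * g⁻¹ ∈ G0 M := by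
  constructor
  · intro h1
    exact QuotientGroup.rightRel_apply.1 (Quotient.exact h1)
  · intro h1
    exact Quotient.sound (s := QuotientGroup.rightRel (G0 M)) (QuotientGroup.rightRel_apply.2 h1)

@[simp] lemma vx_rp {M : ℕ} (v : Vx M) : vx M (rp M v) = v := Quotient.out_eq v

lemma rp_mem {M : ℕ} (g : T9) : g * (rp M (vx M g))⁻¹ ∈ G0 M := by
  rw [← vx_eq, vx_rp]

/-- the class modulo `M` and the sign of the determinant -/
def red (M : ℕ) (g : T9) : Matrix (Fin 2) (Fin 2) (ZMod M) × Prop :=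
  ((mt g).map (Int.cast : ℤ → ZMod M), (mt g).det = 1)

lemma red_eq {M : ℕ} {g h : T9} (e : red M g = red M h) : h * g⁻¹ ∈ G0 M := by
  have e1 : (mt g).map (Int.cast : ℤ → ZMod M) = (mt h).map (Int.cast : ℤ → ZMod M) :=
    congrArg Prod.fst e
  have e2 : ((mt g).det = 1) = ((mt h).det = 1) := congrArg Prod.snd e
  have e3 : (mt g).det = (mt h).det := by
    rcases mt_det' g with h1 | h1 <;> rcases mt_det' h with h2 | h2
    · rw [h1, h2]
    · rw [h1, h2] at e2
      have : ((-1 : ℤ) = 1) := e2 ▸ rfl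
      exact absurd this (by decide)
    · rw [h1, h2] at e2
      have : ((-1 : ℤ) = 1) := e2.symm ▸ rfl
      exact absurd this (by decide)
    · rw [h1, h2]
  rw [mem_G0]
  refine ⟨?_, ?_⟩
  · rw [mt_mul, det_mul, ← e3, ← det_mul, mt_mul_inv, det_one]
  · have h3 : (mt (h * g⁻¹)).map (Int.cast : ℤ → ZMod M) = 1 := by
      rw [mt_mul, map_cast_mul, ← e1, ← map_cast_mul, mt_mul_inv]
      simp [Matrix.map_one]
    have h4 := congrFun (congrFun h3 1) 0
    rw [Matrix.map_apply] at h4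
    rw [← ZMod.intCast_zmod_eq_zero_iff_dvd]
    simpa using h4

instance (M : ℕ) [NeZero M] : Finite (Vx M) := by
  have : Finite (Matrix (Fin 2) (Fin 2) (ZMod M)) := inferInstanceAs (Finite (Fin 2 → Fin 2 → ZMod M))
  refine Finite.of_injective (fun v : Vx M => red M (rp M v)) ?_
  intro v w h
  have h1 := red_eq h
  rw [← vx_eq, vx_rp, vx_rp] at h1
  exact h1

instance (M : ℕ) [NeZero M] : (G0 M).FiniteIndex := by
  have h : Finite (T9 ⧸ G0 M) :=
    Finite.of_equiv (Vx M) (QuotientGroup.quotientRightRelEquivQuotientLeftRel (G0 M))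
  exact Subgroup.finiteIndex_of_finite_quotient

instance (M : ℕ) [NeZero M] : Fintype (Vx M) := Fintype.ofFinite _

instance (M : ℕ) : DecidableEq (Vx M) := Classical.decEq _

/-- the level `Γ₀(M)` -/
def lev0 (M : ℕ) : Lev (G0 M) (Vx M) where
  r := rp M
  cls := vx M
  mem g := rp_mem g
  cls_mul γ hγ g := by
    rw [vx_eq]
    simpa using (G0 M).inv_mem hγ
  cls_r v := vx_rp v

end Gouvea.PN
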