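import Pool.Agent.Work.MP_d3517d_nt.PN.RepB
import Pool.Agent.Work.MP_d3517d_nt.PN.Heckeu

set_option autoImplicit false
set_option linter.unusedVariables false

/-!
# Traces at `p` and `T_p` through the level `Mp` (source package)
-/

open Polynomial Finset Matrix

noncomputable section

namespace Gouvea.PN

open Gouvea.PS.RepA CongruenceSubgroup
open scoped MatrixGroups

variable {k : Type} [CommRing k]

theorem isG0_of_PL {M p : ℕ} (hp : p.Prime) (hpM : ¬ p ∣ M) {g : S9} (hg : IsG0 M g)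
    (hP : PL p g) : IsG0 (M * p) g := by
  refine ⟨hg.1, ?_⟩
  have hco : IsCoprime (M : ℤ) (p : ℤ) := by
    rw [Nat.isCoprime_iff_coprime]
    exact ((Nat.Prime.coprime_iff_not_dvd hp).2 hpM).symm
  push_cast
  exact hco.mul_dvd hg.2 hP

theorem PL_of_isG0 {M p : ℕ} {g : S9} (hg : IsG0 (M * p) g) : IsG0 M g ∧ PL p g := by
  obtain ⟨h1, h2⟩ := hg
  push_cast at h2
  exact ⟨⟨h1, (dvd_mul_right _ _).trans h2⟩, (dvd_mul_left _ _).trans h2⟩

theorem kap_rep {M p : ℕ} (hp : p.Prime) (hM : 9 ∣ M) (hM0 : M ≠ 0) (hpM : ¬ p ∣ M) {g : S9}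
    (hg : IsG0 M g) : ∃! i, ∃ γ : S9, IsG0 (M * p) γ ∧ g = γ * kap M p i := by
  have hpi : Prime (p : ℤ) := Nat.prime_iff_prime_int.1 hp
  obtain ⟨i, C, hC, hPC⟩ := kap_ex hp hM hpM g (by
    rw [hg.1]; exact fun h => hpi.not_isUnit (isUnit_of_dvd_one h))
  obtain ⟨ti, hti, hti1, hti2⟩ := isG0_inv hM (kap_mem (p := p) hM i)
  have hCe : C = g * ti := by rw [hC, mul_assoc, hti2, mul_one]
  have hCM : IsG0 M C := hCe ▸ isG0_mul hg hti
  refine ⟨i, ⟨C, isG0_of_PL hp hpM hCM hPC, hC⟩, ?_⟩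
  rintro j ⟨γ, hγ, h⟩
  obtain ⟨hγ1, hγ2⟩ := PL_of_isG0 hγ
  obtain ⟨δ, hδ, hδ1, hδ2⟩ := isG0_inv hM hCM
  obtain ⟨ε, hε, hε1, hε2⟩ := isG0_inv hM hγ1
  refine kap_un hp hM hpM j i (ε * C) (isG0_mul hε hCM) (PL_mul (PL_inv hM hγ1 hε2 hγ2) hPC) ?_
  rw [mul_assoc, ← hC, h, ← mul_assoc, hε1, one_mul]

theorem kau_rep {M p : ℕ} (hp : p.Prime) (hM : 9 ∣ M) (hM0 : M ≠ 0) (hpM : ¬ p ∣ M) {g : S9}
    (hg : IsG0 M g) : ∃! i, ∃ γ : S9, IsGu M p γ ∧ g = γ * kau M p i := by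
  have hpi : Prime (p : ℤ) := Nat.prime_iff_prime_int.1 hp
  obtain ⟨i, C, hC, hPC⟩ := kau_ex hp hM hpM g (by
    rw [hg.1]; exact fun h => hpi.not_isUnit (isUnit_of_dvd_one h))
  obtain ⟨ti, hti, hti1, hti2⟩ := isG0_inv hM (kau_mem (p := p) hM i)
  have hCe : C = g * ti := by rw [hC, mul_assoc, hti2, mul_one]
  have hCM : IsG0 M C := hCe ▸ isG0_mul hg hti
  refine ⟨i, ⟨C, ⟨hCM, hPC⟩, hC⟩, ?_⟩
  rintro j ⟨γ, ⟨hγ1, hγ2⟩, h⟩
  obtain ⟨ε, hε, hε1, hε2⟩ := isG0_inv hM hγ1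
  refine kau_un hp hM hpM j i (ε * C) (isG0_mul hε hCM) (PU_mul (PU_inv hM hγ1 hε2 hγ2) hPC) ?_
  rw [mul_assoc, ← hC, h, ← mul_assoc, hε1, one_mul]

/-- the trace is invariant under `Γ₀(M)` -/
theorem Trans.trace {M p l n : ℕ} {P : S9 → Prop} {t : Option (Fin p) → S9} {bb : Ix M l → S9}
    (T : Trans M p l P t bb) (hp : p.Prime) (hM : 9 ∣ M)
    {χ : Cusp → Cusp → Fin (n + 1) → k} (hχ : ∀ γ, IsG0 M γ → P γ → act k n γ χ = χ)
    {g : S9} (hg : IsG0 M g) :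
    act k n g (∑ i, act k n (t i) χ) = ∑ i, act k n (t i) χ := by
  classical
  have hpi : Prime (p : ℤ) := Nat.prime_iff_prime_int.1 hp
  have key : ∀ i, ∃ j, ∃ γ : S9, IsG0 M γ ∧ P γ ∧ t i * g = γ * t j := by
    intro i
    have hB : IsG0 M (t i * g) := isG0_mul (T.mem i) hg
    obtain ⟨j, C, hC, hPC⟩ := T.ex (t i * g) (by
      rw [hB.1]; exact fun h => hpi.not_isUnit (isUnit_of_dvd_one h))
    obtain ⟨tj, htj, htj1, htj2⟩ := isG0_inv hM (T.mem j)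
    have hCe : C = (t i * g) * tj := by rw [hC, mul_assoc, htj2, mul_one]
    exact ⟨j, C, hCe ▸ isG0_mul hB htj, hPC, hC⟩
  choose f γ hγ hPγ hf using key
  have hinj : Function.Injective f := by
    intro i j hij
    obtain ⟨δ, hδ, hδ1, hδ2⟩ := isG0_inv hM (hγ j)
    have hPδ : P δ := T.inv _ _ (hγ j) hδ hδ2 (hPγ j)
    have h1 : t i * g = (γ i * δ) * (t j * g) := by
      rw [hf i, hf j, hij, mul_assoc (γ i), ← mul_assoc δ, hδ1, one_mul]
    rw [← mul_assoc] at h1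
    exact T.un i j (γ i * δ) (isG0_mul (hγ i) hδ) (T.mul _ _ (hPγ i) hPδ)
      (S9_mul_right_cancel h1)
  rw [map_sum]
  refine Fintype.sum_bijective f (Finite.injective_iff_bijective.1 hinj) _ _ fun i => ?_
  rw [act_act, hf i, ← act_act, hχ (γ i) (hγ i) (hPγ i)]

/-- the trace and the Hecke operators -/
theorem Trans.sum {M p l n : ℕ} {P : S9 → Prop} {t : Option (Fin p) → S9} {bb : Ix M l → S9}
    (T : Trans M p l P t bb) (hp : p.Prime) (hl : l.Prime) (hlp : l ≠ p) (hM : 9 ∣ M)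
    (hM0 : M ≠ 0) {χ : Cusp → Cusp → Fin (n + 1) → k}
    (hχ : ∀ γ, IsG0 M γ → P γ → act k n γ χ = χ) :
    ∑ a : Ix M l, act k n (bet M l a) (∑ i, act k n (t i) χ) =
      ∑ i, act k n (t i) (∑ a : Ix M l, act k n (bb a) χ) := by
  classical
  obtain ⟨e, he⟩ := T.equiv hp hl hlp hM hM0
  have h1 : ∑ a : Ix M l, act k n (bet M l a) (∑ i, act k n (t i) χ) =
      ∑ x : Option (Fin p) × Ix M l, act k n (t x.1 * bet M l x.2) χ := by
    rw [Fintype.sum_prod_type_right]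
    refine Finset.sum_congr rfl fun a _ => ?_
    rw [map_sum]
    exact Finset.sum_congr rfl fun i _ => act_act n _ _ χ
  have h2 : ∑ i, act k n (t i) (∑ a : Ix M l, act k n (bb a) χ) =
      ∑ y : Ix M l × Option (Fin p), act k n (bb y.1 * t y.2) χ := by
    rw [Fintype.sum_prod_type_right]
    refine Finset.sum_congr rfl fun i _ => ?_
    rw [map_sum]
    exact Finset.sum_congr rfl fun a _ => act_act n _ _ χ
  rw [h1, h2]
  refine Fintype.sum_equiv e _ _ fun x => ?_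
  obtain ⟨γ, hγ, hPγ, h⟩ := he x
  rw [h, ← act_act, hχ γ hγ hPγ]

theorem sum_add_mem {ι : Type} [Fintype ι] {n : ℕ} (t : ι → S9)
    {χ : Cusp → Cusp → Fin (n + 1) → k} (hc : ∀ x y z, χ x y + χ y z = χ x z) (x y z : Cusp) :
    (∑ i, act k n (t i) χ) x y + (∑ i, act k n (t i) χ) y z = (∑ i, act k n (t i) χ) x z := by
  simp only [Finset.sum_apply]
  rw [← Finset.sum_add_distrib]
  exact Finset.sum_congr rfl fun i _ => act_add_mem _ hc x y z

/-- an auxiliary prime different from `p` -/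
theorem exists_aux (p : ℕ) : ∃ l : ℕ, l.Prime ∧ l ≠ p := by
  by_cases h : p = 2
  · exact ⟨3, Nat.prime_three, by omega⟩
  · exact ⟨2, Nat.prime_two, fun h' => h h'.symm⟩

/-- the trace from level `Mp` to level `M` -/
theorem trace_mem {M p n : ℕ} (hp : p.Prime) (hM : 9 ∣ M) (hM0 : M ≠ 0) (hpM : ¬ p ∣ M)
    {φ : Cusp → Cusp → Fin (n + 1) → k} (hφ : φ ∈ Sym k (M * p) n) :
    ∑ i, act k n (kap M p i) φ ∈ Sym k M n := by
  obtain ⟨l, hl, hlp⟩ := exists_aux p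
  refine ⟨sum_add_mem _ hφ.1, fun g hg => ?_⟩
  exact (trans_kap hp hl hlp hM hM0 hpM).trace hp hM
    (fun γ hγ hP => hφ.2 γ (isG0_of_PL hp hpM hγ hP)) hg

theorem trace_mem_u {M p n : ℕ} (hp : p.Prime) (hM : 9 ∣ M) (hM0 : M ≠ 0) (hpM : ¬ p ∣ M)
    {χ : Cusp → Cusp → Fin (n + 1) → k} (hc : ∀ x y z, χ x y + χ y z = χ x z)
    (hχ : ∀ γ, IsGu M p γ → act k n γ χ = χ) :
    ∑ i, act k n (kau M p i) χ ∈ Sym k M n := by
  obtain ⟨l, hl, hlp⟩ := exists_aux p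
  refine ⟨sum_add_mem _ hc, fun g hg => ?_⟩
  exact (trans_kau hp hl hlp hM hM0 hpM).trace hp hM (fun γ hγ hP => hχ γ ⟨hγ, hP⟩) hg

theorem card_Ix {M p : ℕ} (hpM : ¬ p ∣ M) :
    Fintype.card (Option (Fin p)) = Fintype.card (Ix M p) := by
  classical
  have h1 : Fintype.card (Ix M p) = Fintype.card (Fin p ⊕ {_u : Unit // ¬ p ∣ M}) :=
    Fintype.card_congr (Equiv.refl _)
  have : Unique {_u : Unit // ¬ p ∣ M} := ⟨⟨⟨(), hpM⟩⟩, fun u => rfl⟩
  rw [h1, Fintype.card_option, Fintype.card_sum, Fintype.card_fin,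
    Fintype.card_unique (α := {_u : Unit // ¬ p ∣ M})]

theorem hecke_p_eq_d {M p n : ℕ} (hp : p.Prime) (hM : 9 ∣ M) (hM0 : M ≠ 0) (hpM : ¬ p ∣ M)
    {φ : Cusp → Cusp → Fin (n + 1) → k} (hφ : ∀ γ, IsG0 M γ → act k n γ φ = φ) :
    ∑ i, act k n (upS p 0 1 * kap M p i) φ = hecke k M n p φ := by
  have hodd := n3_prime_rep hp hM hpM
  have hd : (upS p 0 1).1 = !![(p : ℤ), 0; 0, 1] := upS_coe hodd one_ne_zero
  have hdel : Del M p (upS p 0 1) := by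
    rw [del_iff, hd]
    refine dn_mem ?_
    rw [Nat.isCoprime_iff_coprime]
    exact (Nat.Prime.coprime_iff_not_dvd hp).2 hpM
  refine hecke_eq_sum hp hM hM0 hφ _ (fun i => del_mul hdel (kap_mem hM i)) (card_Ix hpM) ?_
  intro i j γ hγ h
  obtain ⟨tj, htj, htj1, htj2⟩ := isG0_inv hM (kap_mem (p := p) hM j)
  have h1 : upS p 0 1 * (kap M p i * tj) = γ * upS p 0 1 := by
    rw [← mul_assoc, h, mul_assoc, mul_assoc, htj2, mul_one]
  refine kap_un hp hM hpM i j (kap M p i * tj) (isG0_mul (kap_mem hM i) htj) ?_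
    (by rw [mul_assoc, htj1, mul_one])
  generalize kap M p i * tj = C at h1
  unfold PL
  have h2 := congrArg (fun x : S9 => x.1 1 0) h1
  simp only [Submonoid.coe_mul] at h2
  rw [Matrix.mul_apply, Matrix.mul_apply, Fin.sum_univ_two, Fin.sum_univ_two, hd] at h2
  refine ⟨γ.1 1 0, ?_⟩
  simp at h2
  linarith

theorem hecke_p_eq_u {M p n : ℕ} (hp : p.Prime) (hM : 9 ∣ M) (hM0 : M ≠ 0) (hpM : ¬ p ∣ M)
    {φ : Cusp → Cusp → Fin (n + 1) → k} (hφ : ∀ γ, IsG0 M γ → act k n γ φ = φ) :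
    ∑ i, act k n (upS 1 0 p * kau M p i) φ = hecke k M n p φ := by
  have hp0 : (p : ℤ) ≠ 0 := by exact_mod_cast hp.ne_zero
  have hd : (upS 1 0 p).1 = !![1, 0; 0, (p : ℤ)] := upS_coe n3_one hp0
  have hdel : Del M p (upS 1 0 p) := by
    rw [del_iff, hd]
    exact up_mem _ _ _
  refine hecke_eq_sum hp hM hM0 hφ _ (fun i => del_mul hdel (kau_mem hM i)) (card_Ix hpM) ?_
  intro i j γ hγ h
  obtain ⟨tj, htj, htj1, htj2⟩ := isG0_inv hM (kau_mem (p := p) hM j)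
  have h1 : upS 1 0 p * (kau M p i * tj) = γ * upS 1 0 p := by
    rw [← mul_assoc, h, mul_assoc, mul_assoc, htj2, mul_one]
  refine kau_un hp hM hpM i j (kau M p i * tj) (isG0_mul (kau_mem hM i) htj) ?_
    (by rw [mul_assoc, htj1, mul_one])
  generalize kau M p i * tj = C at h1
  unfold PU
  have h2 := congrArg (fun x : S9 => x.1 0 1) h1
  simp only [Submonoid.coe_mul] at h2
  rw [Matrix.mul_apply, Matrix.mul_apply, Fin.sum_univ_two, Fin.sum_univ_two, hd] at h2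
  refine ⟨γ.1 0 1, ?_⟩
  simp at h2
  linarith

/-- the trace commutes with `T_l`, `U_l`, `l ≠ p`. -/
theorem hecke_trace {M p l n : ℕ} (hp : p.Prime) (hl : l.Prime) (hlp : l ≠ p) (hM : 9 ∣ M)
    (hM0 : M ≠ 0) (hpM : ¬ p ∣ M)
    {φ : Cusp → Cusp → Fin (n + 1) → k} (hφ : ∀ γ, IsG0 (M * p) γ → act k n γ φ = φ) :
    hecke k M n l (∑ i, act k n (kap M p i) φ) =
      ∑ i, act k n (kap M p i) (hecke k (M * p) n l φ) := by
  have h1 : hecke k (M * p) n l = hecke k M n l := by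
    apply hecke_congr
    rw [Nat.Prime.dvd_mul hl, Nat.prime_dvd_prime_iff_eq hl hp]
    exact ⟨fun h => h.resolve_right hlp, Or.inl⟩
  rw [h1, hecke_eq, LinearMap.sum_apply, LinearMap.sum_apply]
  exact (trans_kap hp hl hlp hM hM0 hpM).sum hp hl hlp hM hM0
    (fun γ hγ hP => hφ γ (isG0_of_PL hp hpM hγ hP))

theorem heckeu_sum (M p n l : ℕ) : heckeu k M p n l = ∑ i : Ix M l, act k n (beu M p l i) := by
  classical
  have h1 : ∑ i : Ix M l, act k n (beu M p l i) =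
      ∑ b : Fin l, act k n (upS 1 (p * (b : ℕ)) l) +
        ∑ _u : {_u : Unit // ¬ l ∣ M}, act k n (upS l 0 1) := by
    have h2 : ∑ i : Ix M l, act k n (beu M p l i) =
        ∑ i : Fin l ⊕ {_u : Unit // ¬ l ∣ M}, act k n (beu M p l i) :=
      Fintype.sum_equiv (Equiv.refl _) _ _ (fun _ => rfl)
    rw [h2]
    exact Fintype.sum_sum_type (fun i : Fin l ⊕ {_u : Unit // ¬ l ∣ M} =>
      act k n (beu M p l i))
  rw [h1, heckeu]
  congr 1
  · exact Finset.sum_range (fun b : ℕ => act k n (upS 1 (p * (b : ℤ)) l))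
  · by_cases h : l ∣ M
    · rw [if_pos h]
      have : IsEmpty {_u : Unit // ¬ l ∣ M} := ⟨fun u => u.2 h⟩
      simp
    · rw [if_neg h]
      have : Unique {_u : Unit // ¬ l ∣ M} := ⟨⟨⟨(), h⟩⟩, fun u => rfl⟩
      rw [Fintype.sum_unique]

theorem hecke_trace_u {M p l n : ℕ} (hp : p.Prime) (hl : l.Prime) (hlp : l ≠ p) (hM : 9 ∣ M)
    (hM0 : M ≠ 0) (hpM : ¬ p ∣ M)
    {χ : Cusp → Cusp → Fin (n + 1) → k} (hχ : ∀ γ, IsGu M p γ → act k n γ χ = χ) :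
    hecke k M n l (∑ i, act k n (kau M p i) χ) =
      ∑ i, act k n (kau M p i) (heckeu k M p n l χ) := by
  rw [heckeu_sum, hecke_eq, LinearMap.sum_apply, LinearMap.sum_apply]
  exact (trans_kau hp hl hlp hM hM0 hpM).sum hp hl hlp hM hM0
    (fun γ hγ hP => hχ γ ⟨hγ, hP⟩)

end Gouvea.PN
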