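import Pool.Agent.Work.MP_d3517d_nt.PN.Lev0
import Pool.Agent.Work.MP_d3517d_nt.PN.RepP
import Pool.Agent.Work.MP_d3517d_nt.PN.Hecke
import Pool.Agent.Work.MP_d3517d_nt.PS.Ops

/-!
# The operators of the doubled datum (MP_d3517d_nt, partial symbols)

`ga n A g φ (x, y) = φ(g x, g y) | A`: the points are moved by `g ∈ S9` and the values are slashed
by the integral matrix `A`.  `η = (0 1; p 0)`, `s = (0 1; 1 0)`.  The minus copy at level `Mp` is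
the space of the twisted symbols `ψ(γ x, γ y) = ψ(x, y) | η γ⁻¹ η⁻¹`.
-/

open Polynomial Finset Matrix

noncomputable section

namespace Gouvea.PN

open Gouvea.PS (IsCoc IsTree Symb mem_Symb Lev et ss ce et_mul_et ss_mul_ss ce_eq ce_mul_et
  et_mul_ce ce_mul ce_one map_ce_neg_one)

variable {k : Type} [CommRing k]

variable (k) in
/-- points moved by `g`, values slashed by `A` -/
def ga (n : ℕ) (A : Matrix (Fin 2) (Fin 2) ℤ) (g : S9) :
    (Cusp → Cusp → Fin (n + 1) → k) →ₗ[k] (Cusp → Cusp → Fin (n + 1) → k) where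
  toFun φ x y := (slk n (A.map (Int.cast : ℤ → k))).mulVec (φ (g • x) (g • y))
  map_add' φ ψ := by
    ext x y i
    simp [Matrix.mulVec_add]
  map_smul' a φ := by
    ext x y i
    simp [Matrix.mulVec_smul]

lemma ga_apply (n : ℕ) (A : Matrix (Fin 2) (Fin 2) ℤ) (g : S9)
    (φ : Cusp → Cusp → Fin (n + 1) → k) (x y : Cusp) :
    ga k n A g φ x y = (slk n (A.map (Int.cast : ℤ → k))).mulVec (φ (g • x) (g • y)) := rfl

lemma act_eq_ga (n : ℕ) (g : S9) : act k n g = ga k n g.1 g := rfl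

lemma ga_ga (n : ℕ) (A B : Matrix (Fin 2) (Fin 2) ℤ) (g h : S9)
    (φ : Cusp → Cusp → Fin (n + 1) → k) : ga k n A g (ga k n B h φ) = ga k n (B * A) (h * g) φ := by
  funext x y
  rw [ga_apply, ga_apply, ga_apply, mul_smul, mul_smul, map_cast_mul, slk_mul,
    Matrix.mulVec_mulVec]

lemma ga_congr (n : ℕ) (A : Matrix (Fin 2) (Fin 2) ℤ) {g h : S9} (H : ∀ x : Cusp, g • x = h • x)
    (φ : Cusp → Cusp → Fin (n + 1) → k) : ga k n A g φ = ga k n A h φ := by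
  funext x y
  rw [ga_apply, ga_apply, H, H]

lemma ga_coc {n : ℕ} (A : Matrix (Fin 2) (Fin 2) ℤ) (g : S9) {φ : Cusp → Cusp → Fin (n + 1) → k}
    (h : IsCoc φ) : IsCoc (ga k n A g φ) := by
  intro x y z
  rw [ga_apply, ga_apply, ga_apply, ← Matrix.mulVec_add, h]

lemma map_smul_one (c : ℤ) : ((c • (1 : Matrix (Fin 2) (Fin 2) ℤ)).map (Int.cast : ℤ → k)) =
    (c : k) • 1 := by
  ext i j
  rw [Matrix.map_apply, Matrix.smul_apply, Matrix.smul_apply, smul_eq_mul, Int.cast_mul]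
  fin_cases i <;> fin_cases j <;> simp

lemma ga_scalar (n : ℕ) (c : ℤ) (φ : Cusp → Cusp → Fin (n + 1) → k) :
    ga k n (c • 1) 1 φ = (c : k) ^ n • φ := by
  funext x y
  rw [ga_apply, map_smul_one, slk_smul, slk_one, one_smul, one_smul, Matrix.smul_mulVec,
    Matrix.one_mulVec]
  rfl

lemma ga_one (n : ℕ) (φ : Cusp → Cusp → Fin (n + 1) → k) : ga k n 1 1 φ = φ := by
  have := ga_scalar (k := k) n 1 φ
  simpa using this

/-! ### twisted symbols -/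

lemma mt_dvd_p {M p : ℕ} (g : G0 (M * p)) : (p : ℤ) ∣ mt (g : T9) 1 0 :=
  dvd_trans (by push_cast; exact dvd_mul_left _ _) (mem_G0.1 g.2).2

section Twist

variable {M p n : ℕ}

variable (k) in
/-- The twisted representation `g ↦ slk n (η g⁻¹ η⁻¹)` of `Γ₀(M p)`. -/
def rhoT (M p n : ℕ) [NeZero p] : G0 (M * p) →* Matrix (Fin (n + 1)) (Fin (n + 1)) k where
  toFun g := slk n ((ce p (mt (g⁻¹ : G0 (M * p)))).map (Int.cast : ℤ → k))
  map_one' := by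
    rw [inv_one]
    change slk n ((ce p (mt 1)).map (Int.cast : ℤ → k)) = 1
    rw [mt_one, ce_one, ← mt_one, mt_one_map, slk_one]
  map_mul' g h := by
    rw [_root_.mul_inv_rev]
    change slk n ((ce p (mt (((h⁻¹ : G0 (M * p)) : T9) * ((g⁻¹ : G0 (M * p)) : T9)))).map
      (Int.cast : ℤ → k)) = _
    rw [mt_mul, ce_mul (NeZero.ne p) (mt_dvd_p _) (mt_dvd_p _), map_cast_mul, slk_mul]

lemma rhoT_apply [NeZero p] (g : G0 (M * p)) :
    rhoT k M p n g = slk n ((ce p (mt (g⁻¹ : G0 (M * p)))).map (Int.cast : ℤ → k)) := rfl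

lemma ce_ng (p : ℕ) : ce p (-1) = -1 := map_ce_neg_one p

lemma rhoT_ng [NeZero p] (hn : Even n) :
    ∃ h : ng ∈ G0 (M * p), rhoT k M p n ⟨ng, h⟩ = 1 := by
  refine ⟨ng_mem_G0 _, ?_⟩
  rw [rhoT_apply]
  change slk n ((ce p (mt ng⁻¹)).map (Int.cast : ℤ → k)) = 1
  rw [ng_inv, mt_ng, ce_ng, neg_one_map, slk_neg n hn, slk_one]

/-- membership for the plain symbols -/
lemma mem_sym_iff {φ : Cusp → Cusp → Fin (n + 1) → k} : φ ∈ Sym k M n ↔
    IsCoc φ ∧ ∀ g ∈ G0 M, ga k n (mt g) (toS g) φ = φ := by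
  constructor
  · rintro ⟨h1, h2⟩
    exact ⟨h1, fun g hg => h2 (toS g) (isG0_iff.2 hg)⟩
  · rintro ⟨h1, h2⟩
    refine ⟨h1, fun g hg => ?_⟩
    obtain ⟨u, hu, rfl⟩ := exists_toS' hg
    exact h2 u hu

/-- membership for the twisted symbols -/
lemma mem_symT_iff [NeZero p] {ψ : Cusp → Cusp → Fin (n + 1) → k} :
    ψ ∈ Symb Cusp (rhoT k M p n) ↔
      IsCoc ψ ∧ ∀ g ∈ G0 (M * p), ga k n (ce p (mt g)) (toS g) ψ = ψ := by
  rw [mem_Symb]
  constructor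
  · rintro ⟨h1, h2⟩
    refine ⟨h1, fun g hg => ?_⟩
    funext x y
    have h3 := h2 ⟨g, hg⟩ x y
    rw [ga_apply]
    change (slk n _).mulVec (ψ (g • x) (g • y)) = _
    rw [h3, Matrix.mulVec_mulVec, rhoT_apply]
    change (slk n ((ce p (mt g)).map (Int.cast : ℤ → k)) *
      slk n ((ce p (mt g⁻¹)).map (Int.cast : ℤ → k))).mulVec (ψ x y) = _
    rw [← slk_mul, ← map_cast_mul, ← ce_mul (NeZero.ne p) (mt_dvd_p ⟨g⁻¹, (G0 (M * p)).inv_mem hg⟩)
      (mt_dvd_p ⟨g, hg⟩), ← mt_mul, inv_mul_cancel, mt_one, ce_one, ← mt_one, mt_one_map, slk_one,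
      Matrix.one_mulVec]
  · rintro ⟨h1, h2⟩
    refine ⟨h1, fun g x y => ?_⟩
    have h3 := congrFun (congrFun (h2 g g.2) x) y
    rw [ga_apply] at h3
    rw [← h3, Matrix.mulVec_mulVec, rhoT_apply]
    change _ = (slk n ((ce p (mt (g : T9)⁻¹)).map (Int.cast : ℤ → k)) *
      slk n ((ce p (mt g)).map (Int.cast : ℤ → k))).mulVec (ψ ((g : T9) • x) ((g : T9) • y))
    rw [← slk_mul, ← map_cast_mul, ← ce_mul (NeZero.ne p) (mt_dvd_p g)
      (mt_dvd_p ⟨(g : T9)⁻¹, (G0 (M * p)).inv_mem g.2⟩), ← mt_mul, mul_inv_cancel, mt_one,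
      ce_one, ← mt_one, mt_one_map, slk_one, Matrix.one_mulVec]

/-- `W` from plus to minus. -/
lemma W_mem_T [NeZero p] {φ : Cusp → Cusp → Fin (n + 1) → k} (h : φ ∈ Sym k (M * p) n) :
    ga k n (et p) 1 φ ∈ Symb Cusp (rhoT k M p n) := by
  rw [mem_sym_iff] at h
  rw [mem_symT_iff]
  refine ⟨ga_coc _ _ h.1, fun g hg => ?_⟩
  rw [ga_ga, one_mul, et_mul_ce (NeZero.ne p) (mt_dvd_p ⟨g, hg⟩)]
  have := ga_ga n (et p) (mt g) 1 (toS g) φ
  rw [mul_one, h.2 g hg] at this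
  rw [← this]

/-- `W` from minus to plus. -/
lemma W_mem [NeZero p] {ψ : Cusp → Cusp → Fin (n + 1) → k}
    (h : ψ ∈ Symb Cusp (rhoT k M p n)) : ga k n (et p) 1 ψ ∈ Sym k (M * p) n := by
  rw [mem_symT_iff] at h
  rw [mem_sym_iff]
  refine ⟨ga_coc _ _ h.1, fun g hg => ?_⟩
  rw [ga_ga, one_mul, ← ce_mul_et (NeZero.ne p) (mt_dvd_p ⟨g, hg⟩)]
  have := ga_ga n (et p) (ce p (mt g)) 1 (toS g) ψ
  rw [mul_one, h.2 g hg] at this
  rw [← this]

lemma ga_et_et (φ : Cusp → Cusp → Fin (n + 1) → k) :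
    ga k n (et p) 1 (ga k n (et p) 1 φ) = (p : k) ^ n • φ := by
  rw [ga_ga, et_mul_et, one_mul, ga_scalar]
  simp

end Twist

/-! ### inclusion and trace -/

section Incl

variable {M p n : ℕ}

/-- `δ = (p 0; 0 1)` -/
def dl (p : ℕ) : S9 := upS p 0 1

/-- `δ' = (1 0; 0 p)` -/
def dr (p : ℕ) : S9 := upS 1 0 p

lemma dl_coe (hp : N3 (p : ℤ)) : (dl p).1 = !![(p : ℤ), 0; 0, 1] := upS_coe hp one_ne_zero

lemma dr_coe (hp : p ≠ 0) : (dr p).1 = !![1, 0; 0, (p : ℤ)] :=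
  upS_coe n3_one (by exact_mod_cast hp)

lemma ss_mul_et (hp : N3 (p : ℤ)) : ss * et p = (dl p).1 := by
  rw [dl_coe hp]
  ext i j
  fin_cases i <;> fin_cases j <;> simp [ss, et, Matrix.mul_apply, Fin.sum_univ_two]

lemma et_mul_ss (hp : p ≠ 0) : et p * ss = (dr p).1 := by
  rw [dr_coe hp]
  ext i j
  fin_cases i <;> fin_cases j <;> simp [ss, et, Matrix.mul_apply, Fin.sum_univ_two]

/-- scalars act trivially on the cusps -/
lemma smul_scalar {g : S9} {c : ℤ} (hg : g.1 = c • 1) (x : Cusp) : g • x = x := by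
  revert x
  refine Cusp.ind' (P := fun x => g • x = x) fun u v hu hv => ?_
  obtain ⟨hu', hv', h⟩ := smul_mk g u v hu hv
  rw [h, Cusp.mk_eq, hg]
  simp
  ring

lemma dl_mul_dr (hp : N3 (p : ℤ)) (hp0 : p ≠ 0) : (dl p * dr p).1 = (p : ℤ) • 1 := by
  rw [Submonoid.coe_mul, dl_coe hp, dr_coe hp0]
  ext i j
  fin_cases i <;> fin_cases j <;> simp [Matrix.mul_apply, Fin.sum_univ_two]

lemma dr_mul_dl (hp : N3 (p : ℤ)) (hp0 : p ≠ 0) : (dr p * dl p).1 = (p : ℤ) • 1 := by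
  rw [Submonoid.coe_mul, dl_coe hp, dr_coe hp0]
  ext i j
  fin_cases i <;> fin_cases j <;> simp [Matrix.mul_apply, Fin.sum_univ_two]

/-- For `γ ∈ Γ₀(Mp)` there is `γ' = δ γ δ⁻¹ ∈ Γ₀(M)` with `s (η γ η⁻¹) = γ' s`. -/
lemma exists_cd [NeZero p] (hp : N3 (p : ℤ)) {g : T9} (hg : g ∈ G0 (M * p)) (h4 : 9 ∣ M) :
    ∃ u ∈ G0 M, dl p * toS g = toS u * dl p ∧ ss * ce p (mt g) = mt u * ss := by
  rw [mem_G0] at hg
  obtain ⟨hdet, t, ht⟩ := hg
  rw [det_fin_two] at hdet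
  have hp0 : (p : ℤ) ≠ 0 := by exact_mod_cast NeZero.ne p
  have hd : mt g 0 0 * mt g 1 1 - p * mt g 0 1 * (M * t) = 1 := by
    rw [ht] at hdet
    push_cast at hdet
    linear_combination hdet
  obtain ⟨u, hu⟩ := g9_mk (mt g 0 0) (p * mt g 0 1) (M * t) (mt g 1 1) (Or.inl hd)
    (dvd_mul_of_dvd_left (by exact_mod_cast h4) _)
  refine ⟨u, ?_, ?_, ?_⟩
  · rw [mem_G0, hu, det_fin_two_of]
    exact ⟨hd, by simp⟩
  · apply Subtype.ext
    rw [Submonoid.coe_mul, Submonoid.coe_mul, dl_coe hp, toS_coe, toS_coe, hu]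
    ext i j
    fin_cases i <;> fin_cases j
    all_goals simp [Matrix.mul_apply, Fin.sum_univ_two, ht]
    all_goals ring
  · rw [hu, ce_eq (NeZero.ne p) (t := M * t) (by rw [ht]; push_cast; ring)]
    ext i j
    fin_cases i <;> fin_cases j
    all_goals simp [ss, Matrix.mul_apply, Fin.sum_univ_two]

/-- For `γ ∈ Γ₀(M) ∩ Γ⁰(p)` there is `γ' = δ⁻¹ γ δ ∈ Γ₀(Mp)` with `s γ = (η γ' η⁻¹) s`. -/
lemma exists_cdi [NeZero p] {g : S9} (hg : IsGu M p g) (h4 : 9 ∣ M) :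
    ∃ u ∈ G0 (M * p), dr p * g = toS u * dr p ∧ ss * g.1 = ce p (mt u) * ss := by
  obtain ⟨⟨hdet, s, hs⟩, t, ht⟩ := hg
  have hp0 : (p : ℤ) ≠ 0 := by exact_mod_cast NeZero.ne p
  rw [det_fin_two] at hdet
  have hd : g.1 0 0 * g.1 1 1 - t * (p * g.1 1 0) = 1 := by
    rw [ht] at hdet
    linear_combination hdet
  obtain ⟨u, hu⟩ := g9_mk (g.1 0 0) t (p * g.1 1 0) (g.1 1 1) (Or.inl hd)
    (dvd_mul_of_dvd_right g.2.2.2 _)
  refine ⟨u, ?_, ?_, ?_⟩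
  · rw [mem_G0, hu, det_fin_two_of]
    refine ⟨hd, ?_⟩
    rw [hs]
    exact ⟨s, by simp; ring⟩
  · apply Subtype.ext
    rw [Submonoid.coe_mul, Submonoid.coe_mul, dr_coe (NeZero.ne p), toS_coe, hu]
    ext i j
    fin_cases i <;> fin_cases j
    all_goals simp [Matrix.mul_apply, Fin.sum_univ_two, ht]
    all_goals ring
  · rw [hu, ce_eq (NeZero.ne p) (t := g.1 1 0) (by simp)]
    ext i j
    fin_cases i <;> fin_cases j
    all_goals simp [ss, Matrix.mul_apply, Fin.sum_univ_two, ht]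

/-- `ι₋` -/
lemma iM_mem [NeZero p] (hp : N3 (p : ℤ)) (h4 : 9 ∣ M) {f : Cusp → Cusp → Fin (n + 1) → k}
    (h : f ∈ Sym k M n) : ga k n ss (dl p) f ∈ Symb Cusp (rhoT k M p n) := by
  rw [mem_sym_iff] at h
  rw [mem_symT_iff]
  refine ⟨ga_coc _ _ h.1, fun g hg => ?_⟩
  obtain ⟨u, hu, h1, h2⟩ := exists_cd hp hg h4
  rw [ga_ga, h1, h2]
  have := ga_ga n ss (mt u) (dl p) (toS u) f
  rw [h.2 u hu] at this
  exact this.symm

/-- `ι₊` -/
lemma iP_mem {f : Cusp → Cusp → Fin (n + 1) → k} (h : f ∈ Sym k M n) : f ∈ Sym k (M * p) n := by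
  rw [mem_sym_iff] at h ⊢
  exact ⟨h.1, fun g hg => h.2 g (G0_le (dvd_mul_right _ _) hg)⟩

/-- the function whose trace is `π₋` -/
lemma chi_inv [NeZero p] (h4 : 9 ∣ M) {ψ : Cusp → Cusp → Fin (n + 1) → k}
    (h : ψ ∈ Symb Cusp (rhoT k M p n)) (g : S9) (hg : IsGu M p g) :
    act k n g (ga k n ss (dr p) ψ) = ga k n ss (dr p) ψ := by
  rw [mem_symT_iff] at h
  obtain ⟨u, hu, h1, h2⟩ := exists_cdi hg h4
  rw [act_eq_ga, ga_ga, h1, h2]
  have := ga_ga n ss (ce p (mt u)) (dr p) (toS u) ψ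
  rw [h.2 u hu] at this
  exact this.symm

variable (k) in
/-- `π₊` -/
def piP (M p n : ℕ) : (Cusp → Cusp → Fin (n + 1) → k) →ₗ[k] (Cusp → Cusp → Fin (n + 1) → k) :=
  ∑ i, act k n (kap M p i)

variable (k) in
/-- `π₋` -/
def piM (M p n : ℕ) : (Cusp → Cusp → Fin (n + 1) → k) →ₗ[k] (Cusp → Cusp → Fin (n + 1) → k) :=
  (∑ i, act k n (kau M p i)) ∘ₗ ga k n ss (dr p)

lemma piP_apply (φ : Cusp → Cusp → Fin (n + 1) → k) :
    piP k M p n φ = ∑ i, act k n (kap M p i) φ := by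
  rw [piP, LinearMap.sum_apply]

lemma piM_apply (ψ : Cusp → Cusp → Fin (n + 1) → k) :
    piM k M p n ψ = ∑ i, act k n (kau M p i) (ga k n ss (dr p) ψ) := by
  rw [piM, LinearMap.comp_apply, LinearMap.sum_apply]

end Incl

end Gouvea.PN
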