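import Pool.Agent.Work.MP_d3517d_nt.PN.Ops

/-!
# The relations between the operators of the doubled datum (MP_d3517d_nt, partial symbols)
-/

open Polynomial Finset Matrix

noncomputable section

namespace Gouvea.PN

open Gouvea.PS (IsCoc IsTree Symb mem_Symb Lev et ss ce et_mul_et ss_mul_ss ce_eq ce_mul_et
  et_mul_ce ce_mul ce_one)

variable {k : Type} [CommRing k] {M p n : ℕ}

/-! ### `π ι = p + 1` -/

theorem piP_iP (h4 : 9 ∣ M) {f : Cusp → Cusp → Fin (n + 1) → k} (h : f ∈ Sym k M n) :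
    piP k M p n f = ((p : k) + 1) • f := by
  rw [piP_apply]
  have h1 : ∀ i ∈ (univ : Finset (Option (Fin p))), act k n (kap M p i) f = f :=
    fun i _ => h.2 _ (kap_mem h4 i)
  rw [Finset.sum_congr rfl h1, Finset.sum_const, Finset.card_univ, Fintype.card_option,
    Fintype.card_fin, ← Nat.cast_smul_eq_nsmul k]
  push_cast
  rfl

lemma ga_ss_ss [NeZero p] (hp : N3 (p : ℤ)) (f : Cusp → Cusp → Fin (n + 1) → k) :
    ga k n ss (dr p) (ga k n ss (dl p) f) = f := by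
  rw [ga_ga, ss_mul_ss, ga_congr n 1 (h := 1) (fun x => by
    rw [one_smul]; exact smul_scalar (dl_mul_dr hp (NeZero.ne p)) x), ga_one]

lemma ga_ss_ss' [NeZero p] (hp : N3 (p : ℤ)) (f : Cusp → Cusp → Fin (n + 1) → k) :
    ga k n ss (dl p) (ga k n ss (dr p) f) = f := by
  rw [ga_ga, ss_mul_ss, ga_congr n 1 (h := 1) (fun x => by
    rw [one_smul]; exact smul_scalar (dr_mul_dl hp (NeZero.ne p)) x), ga_one]

theorem piM_iM [NeZero p] (hp : N3 (p : ℤ)) (h4 : 9 ∣ M) {f : Cusp → Cusp → Fin (n + 1) → k}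
    (h : f ∈ Sym k M n) : piM k M p n (ga k n ss (dl p) f) = ((p : k) + 1) • f := by
  rw [piM_apply, ga_ss_ss hp]
  have h1 : ∀ i ∈ (univ : Finset (Option (Fin p))), act k n (kau M p i) f = f :=
    fun i _ => h.2 _ (kau_mem h4 i)
  rw [Finset.sum_congr rfl h1, Finset.sum_const, Finset.card_univ, Fintype.card_option,
    Fintype.card_fin, ← Nat.cast_smul_eq_nsmul k]
  push_cast
  rfl

/-! ### `W (ι π - 1)` -/

/-- the plus part of `U` -/
theorem U_plus (φ : Cusp → Cusp → Fin (n + 1) → k) :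
    ga k n (et p) 1 (piP k M p n φ - φ) =
      ∑ j : Fin p, ga k n ((kap M p (some j)).1 * et p) (kap M p (some j)) φ := by
  rw [piP_apply, Fintype.sum_option, kap_none, act_one, add_sub_cancel_left, map_sum]
  refine Finset.sum_congr rfl fun j _ => ?_
  rw [act_eq_ga, ga_ga, mul_one]

/-- the minus part of `U` -/
theorem U_minus [NeZero p] (hp : N3 (p : ℤ)) (ψ : Cusp → Cusp → Fin (n + 1) → k) :
    ga k n (et p) 1 (ga k n ss (dl p) (piM k M p n ψ) - ψ) =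
      ∑ j : Fin p, ga k n (ss * (kau M p (some j)).1 * ss * et p)
        (dr p * kau M p (some j) * dl p) ψ := by
  rw [piM_apply, Fintype.sum_option, kau_none, act_one, map_add, ga_ss_ss' hp,
    add_sub_cancel_left, map_sum, map_sum]
  refine Finset.sum_congr rfl fun j _ => ?_
  rw [act_eq_ga, ga_ga, ga_ga, ga_ga, mul_one]
  simp only [mul_assoc]

/-! ### `π W ι = T_p` -/

theorem TP_plus (hp : p.Prime) (hpo : N3 (p : ℤ)) (h4 : 9 ∣ M) (hM0 : M ≠ 0) (hpM : ¬ p ∣ M)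
    {f : Cusp → Cusp → Fin (n + 1) → k} (h : f ∈ Sym k M n) :
    piP k M p n (ga k n (et p) 1 (ga k n ss (dl p) f)) = hecke k M n p f := by
  rw [piP_apply, ← hecke_p_eq_d hp h4 hM0 hpM h.2]
  refine Finset.sum_congr rfl fun i _ => ?_
  rw [act_eq_ga, act_eq_ga, ga_ga, ga_ga, one_mul, ← mul_assoc, ss_mul_et hpo]
  rfl

theorem TP_minus (hp : p.Prime) (h4 : 9 ∣ M) (hM0 : M ≠ 0) (hpM : ¬ p ∣ M)
    {f : Cusp → Cusp → Fin (n + 1) → k} (h : f ∈ Sym k M n) :
    piM k M p n (ga k n (et p) 1 f) = hecke k M n p f := by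
  rw [piM_apply, ← hecke_p_eq_u hp h4 hM0 hpM h.2]
  refine Finset.sum_congr rfl fun i _ => ?_
  rw [act_eq_ga, act_eq_ga, ga_ga, ga_ga, one_mul, ← mul_assoc, et_mul_ss hp.ne_zero]
  rfl

/-! ### the Hecke operators -/

variable (k) in
/-- `T_l` on the twisted symbols -/
def heckeT' (M p n l : ℕ) :
    (Cusp → Cusp → Fin (n + 1) → k) →ₗ[k] (Cusp → Cusp → Fin (n + 1) → k) :=
  (∑ b ∈ range l, ga k n (ce p (upS 1 b l).1) (upS 1 b l)) +
    if l ∣ M then 0 else ga k n (ce p (upS l 0 1).1) (upS l 0 1)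

lemma upS_10 (a b d : ℤ) : (upS a b d).1 1 0 = 0 := by
  unfold upS
  split_ifs <;> simp

lemma upS_dvd (p : ℕ) (a b d : ℤ) : (p : ℤ) ∣ (upS a b d).1 1 0 := by
  rw [upS_10]; exact dvd_zero _

/-- `W` commutes with `T_l`. -/
theorem W_heckeT [NeZero p] (l : ℕ) (φ : Cusp → Cusp → Fin (n + 1) → k) :
    heckeT' k M p n l (ga k n (et p) 1 φ) = ga k n (et p) 1 (hecke k M n l φ) := by
  rw [heckeT', hecke, LinearMap.add_apply, LinearMap.add_apply, map_add, LinearMap.sum_apply,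
    LinearMap.sum_apply, map_sum]
  refine congrArg₂ (· + ·) ?_ ?_
  · refine Finset.sum_congr rfl fun b _ => ?_
    rw [act_eq_ga, ga_ga, ga_ga, et_mul_ce (NeZero.ne p) (upS_dvd p _ _ _), one_mul, mul_one]
  · split_ifs
    · simp
    · rw [act_eq_ga, ga_ga, ga_ga, et_mul_ce (NeZero.ne p) (upS_dvd p _ _ _), one_mul, mul_one]

/-- `W` commutes with `T_l`. -/
theorem W_hecke [NeZero p] (l : ℕ) (ψ : Cusp → Cusp → Fin (n + 1) → k) :
    hecke k M n l (ga k n (et p) 1 ψ) = ga k n (et p) 1 (heckeT' k M p n l ψ) := by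
  rw [heckeT', hecke, LinearMap.add_apply, LinearMap.add_apply, map_add, LinearMap.sum_apply,
    LinearMap.sum_apply, map_sum]
  refine congrArg₂ (· + ·) ?_ ?_
  · refine Finset.sum_congr rfl fun b _ => ?_
    rw [act_eq_ga, ga_ga, ga_ga, ← ce_mul_et (NeZero.ne p) (upS_dvd p _ _ _), one_mul, mul_one]
  · split_ifs
    · simp
    · rw [act_eq_ga, ga_ga, ga_ga, ← ce_mul_et (NeZero.ne p) (upS_dvd p _ _ _), one_mul, mul_one]

/-- `δ α = α' δ` -/
lemma dl_upS (hp : N3 (p : ℤ)) {a b d : ℤ} (ha : N3 a) (hd : d ≠ 0) :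
    dl p * upS a b d = upS a (p * b) d * dl p := by
  apply Subtype.ext
  rw [Submonoid.coe_mul, Submonoid.coe_mul, dl_coe hp, upS_coe ha hd, upS_coe ha hd]
  ext i j
  fin_cases i <;> fin_cases j
  all_goals simp [Matrix.mul_apply, Fin.sum_univ_two]
  all_goals ring

/-- `α δ' = δ' α'` -/
lemma upS_dr (hp : p ≠ 0) {a b d : ℤ} (ha : N3 a) (hd : d ≠ 0) :
    upS a b d * dr p = dr p * upS a (p * b) d := by
  apply Subtype.ext
  rw [Submonoid.coe_mul, Submonoid.coe_mul, dr_coe hp, upS_coe ha hd, upS_coe ha hd]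
  ext i j
  fin_cases i <;> fin_cases j
  all_goals simp [Matrix.mul_apply, Fin.sum_univ_two]
  all_goals ring

lemma ss_ce (hp : p ≠ 0) {a b d : ℤ} (ha : N3 a) (hd : d ≠ 0) :
    ss * ce p (upS a b d).1 = (upS a (p * b) d).1 * ss := by
  rw [upS_coe ha hd, upS_coe ha hd, ce_eq hp (t := 0) (by simp)]
  ext i j
  fin_cases i <;> fin_cases j <;> simp [ss, Matrix.mul_apply, Fin.sum_univ_two]

lemma ce_ss (hp : p ≠ 0) {a b d : ℤ} (ha : N3 a) (hd : d ≠ 0) :
    ce p (upS a b d).1 * ss = ss * (upS a (p * b) d).1 := by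
  rw [upS_coe ha hd, upS_coe ha hd, ce_eq hp (t := 0) (by simp)]
  ext i j
  fin_cases i <;> fin_cases j <;> simp [ss, Matrix.mul_apply, Fin.sum_univ_two]

/-- `ι₋` and `T_l` -/
theorem iM_heckeT [NeZero p] (hp : N3 (p : ℤ)) (h4 : 9 ∣ M) {l : ℕ} (hl : l.Prime)
    (f : Cusp → Cusp → Fin (n + 1) → k) :
    heckeT' k M p n l (ga k n ss (dl p) f) = ga k n ss (dl p) (heckeu k M p n l f) := by
  have hl0 : (l : ℤ) ≠ 0 := by exact_mod_cast hl.ne_zero
  rw [heckeT', heckeu, LinearMap.add_apply, LinearMap.add_apply, map_add, LinearMap.sum_apply,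
    LinearMap.sum_apply, map_sum]
  refine congrArg₂ (· + ·) ?_ ?_
  · refine Finset.sum_congr rfl fun b _ => ?_
    rw [act_eq_ga, ga_ga, ga_ga, ss_ce (NeZero.ne p) n3_one hl0, dl_upS hp n3_one hl0]
  · split_ifs with h
    · simp
    · have ho : N3 (l : ℤ) := n3_prime_rep hl h4 h
      have h1 := ss_ce (p := p) (NeZero.ne p) (b := 0) ho (one_ne_zero (α := ℤ))
      have h2 := dl_upS (p := p) hp (b := 0) ho (one_ne_zero (α := ℤ))
      rw [mul_zero] at h1 h2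
      rw [act_eq_ga, ga_ga, ga_ga, h1, h2]

/-- `π₋` and `T_l` -/
theorem chi_heckeT [NeZero p] (h4 : 9 ∣ M) {l : ℕ} (hl : l.Prime)
    (ψ : Cusp → Cusp → Fin (n + 1) → k) :
    ga k n ss (dr p) (heckeT' k M p n l ψ) = heckeu k M p n l (ga k n ss (dr p) ψ) := by
  have hl0 : (l : ℤ) ≠ 0 := by exact_mod_cast hl.ne_zero
  rw [heckeT', heckeu, LinearMap.add_apply, LinearMap.add_apply, map_add, LinearMap.sum_apply,
    LinearMap.sum_apply, map_sum]
  refine congrArg₂ (· + ·) ?_ ?_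
  · refine Finset.sum_congr rfl fun b _ => ?_
    rw [act_eq_ga, ga_ga, ga_ga, ce_ss (NeZero.ne p) n3_one hl0,
      upS_dr (NeZero.ne p) n3_one hl0]
  · split_ifs with h
    · simp
    · have ho : N3 (l : ℤ) := n3_prime_rep hl h4 h
      have h1 := ce_ss (p := p) (NeZero.ne p) (b := 0) ho (one_ne_zero (α := ℤ))
      have h2 := upS_dr (p := p) (NeZero.ne p) (b := 0) ho (one_ne_zero (α := ℤ))
      rw [mul_zero] at h1 h2
      rw [act_eq_ga, ga_ga, ga_ga, h1, h2]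

theorem piM_heckeT [NeZero p] (hp : p.Prime) (h4 : 9 ∣ M) (hM0 : M ≠ 0) (hpM : ¬ p ∣ M) {l : ℕ}
    (hl : l.Prime) (hlp : l ≠ p) {ψ : Cusp → Cusp → Fin (n + 1) → k}
    (h : ψ ∈ Symb Cusp (rhoT k M p n)) :
    piM k M p n (heckeT' k M p n l ψ) = hecke k M n l (piM k M p n ψ) := by
  rw [piM_apply, piM_apply, chi_heckeT h4 hl,
    hecke_trace_u hp hl hlp h4 hM0 hpM (fun g hg => chi_inv h4 h g hg)]

/-- the trace of a twisted symbol -/
theorem piM_mem [NeZero p] (hp : p.Prime) (h4 : 9 ∣ M) (hM0 : M ≠ 0) (hpM : ¬ p ∣ M)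
    {ψ : Cusp → Cusp → Fin (n + 1) → k} (h : ψ ∈ Symb Cusp (rhoT k M p n)) :
    piM k M p n ψ ∈ Sym k M n := by
  rw [piM_apply]
  exact trace_mem_u hp h4 hM0 hpM (ga_coc _ _ h.1) fun g hg => chi_inv h4 h g hg

theorem piP_mem (hp : p.Prime) (h4 : 9 ∣ M) (hM0 : M ≠ 0) (hpM : ¬ p ∣ M)
    {φ : Cusp → Cusp → Fin (n + 1) → k} (h : φ ∈ Sym k (M * p) n) :
    piP k M p n φ ∈ Sym k M n := by
  rw [piP_apply]
  exact trace_mem hp h4 hM0 hpM h

end Gouvea.PN
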