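import Pool.Agent.Work.MP_d3517d_nt.PN.HRepOf
import Pool.Agent.Work.MP_d3517d_nt.PN.DatOf
import Pool.Agent.Work.MP_d3517d_nt.PN.LevP
import Pool.Agent.Work.MP_d3517d_nt.PN.EntriesU
import Pool.Agent.Work.MP_d3517d_nt.PN.Psi

/-!
# The doubled datum with the explicit operators on both levels (MP_d3517d_nt)
-/

set_option autoImplicit false

open Finset Matrix

noncomputable section

namespace Gouvea.PN

open Gouvea.PS (Neta bag bdg bdg_mul_bag bag_mul_bdg bag_apply bdg_apply dat2_π dat2_W dat2_ι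
  dat2_T Lp)

variable {p : ℕ} [Fact p.Prime]

lemma card_Vx_p {M : ℕ} [NeZero M] (hM : 9 ∣ M) (hpM : ¬ p ∣ M) :
    Fintype.card (Vx (M * p)) = (p + 1) * Fintype.card (Vx M) := by
  have h := card_Vx_mul' (M := M) (N := M * p) (dvd_mul_right _ _) (kap M p)
    (fun i => kap_mem hM i) (fun g hg => kap_rep Fact.out hM (NeZero.ne M) hpM hg)
  rw [h, Fintype.card_option, Fintype.card_fin]

lemma tV_eq_Tm (M n l : ℕ) : tV M p n l = (Tm M n l).map (Int.cast : ℤ → ℤ_[p]) := by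
  rw [Tm_map]
  rfl

/-- **The doubled datum of level `M`** with its Hecke ring, explicitly. -/
theorem exists_source (M : ℕ) [NeZero M] (hM : 9 ∣ M) (hpM : ¬ p ∣ M) :
    ∃ (D : Dat p (2 * Fintype.card (Vx M)) (Vx (M * p) × Bool) (Vx M × Bool))
      (H : HRep D (MvPolynomial (Lp p) ℤ)),
      (∀ n, D.W n = bag fun _ => Neta p (Vx (M * p)) n) ∧
      (∀ n, D.ι n = bdg fun b => iM M p b n) ∧
      (∀ n, D.π n = bdg fun b => pM M p b n) ∧
      (∀ n, Even n → D.π n * D.W n * D.ι n = bag fun _ => tV M p n p) ∧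
      (∀ n hn r, H.TE n hn (MvPolynomial.X r) = bdg fun b => tE M p b n r.1) ∧
      (∀ n hn r, H.TV n hn (MvPolynomial.X r) = bdg fun _ => tV M p n r.1) ∧
      ∀ n, Even n → ∀ i j r, H.gr (n + 2 * j) (i + j) (MvPolynomial.X r) =
        (r.1 : ZMod p) ^ j • H.gr n i (MvPolynomial.X r) := by
  have hpo : N3 (p : ℤ) := n3_of_not_dvd_level Fact.out hM hpM
  obtain ⟨D, hD⟩ := exists_gamU (p := p) hM hpM
  have hπι : ∀ b n, Even n → pM M p b n * iM M p b n = ((p : ℤ_[p]) + 1) • 1 :=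
    fun b n hn => pM_iM hn hpo hM b
  have hU : ∀ n, Even n → Um D n =
      bag fun b => Neta p (Vx (M * p)) n * (iM M p (!b) n * pM M p (!b) n - 1) := by
    intro n hn
    rw [hD n]
    congr 1
    funext b
    exact (N_mul hn hpo hM hpM b).symm
  obtain ⟨H, h1, h2, h3⟩ := exists_hrepOf hM (card_Vx_p hM hpM) rfl D
    (fun b n => iM M p b n) (fun b n => pM M p b n) hπι hU
    (fun b n l q hn hl hlp hq hqp => tE_comm hn hM hl hlp hq hqp b)
    (fun n l q hn hl hq => tV_comm hn hM hl hq)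
    (fun b n l hn hl hlp => tE_W hn b)
    (fun b n l hn hl hlp => tE_iM hn hpo hM hl hlp b)
    (fun b n l hn hl hlp => pM_tE hn hM hpM hl hlp b)
  refine ⟨_, H, fun n => rfl, fun n => rfl, fun n => rfl, fun n hn => ?_, h1, h2, h3⟩
  rw [dat2_T]
  congr 1
  funext b
  exact pM_N_iM hn hpo hM hpM b

end Gouvea.PN
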